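import Pool.Agent.Q198.Snk.Base

/-! JOB 1 of the project on MP_731b42_co and MP_e680c3_co: a shortest-path triangulation whose
faces are bounded by nondegenerate triangles is a triangulation in the language of cones. -/

namespace Pool.Agent.Q198.Snk

open Set Filter Topology Helper479.Sink Pool.Agent.Q131.Snk

lemma S2_ne0 {x : Fin 3 → ℝ} (h : x ∈ S2) : x ≠ 0 := by
  rintro rfl
  have h' : (0:ℝ)^2 + (0:ℝ)^2 + (0:ℝ)^2 = 1 := h
  norm_num at h'

lemma S2_scale {x y : Fin 3 → ℝ} (hx : x ∈ S2) (hy : y ∈ S2) {c : ℝ} (hc : 0 < c)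
    (h : ∀ i, x i ^ 2 = (c * y i) ^ 2) : c = 1 := by
  have hx' : x 0 ^ 2 + x 1 ^ 2 + x 2 ^ 2 = 1 := hx
  have hy' : y 0 ^ 2 + y 1 ^ 2 + y 2 ^ 2 = 1 := hy
  rw [h 0, h 1, h 2] at hx'
  have : c ^ 2 = 1 := by
    have e : (c * y 0) ^ 2 + (c * y 1) ^ 2 + (c * y 2) ^ 2 = c ^ 2 * (y 0 ^ 2 + y 1 ^ 2 + y 2 ^ 2) := by
      ring
    rw [e, hy'] at hx'; linarith
  nlinarith

lemma len_smul_nu {x : Fin 3 → ℝ} (h : x ≠ 0) : x = len x • nu x := by
  unfold nu
  rw [smul_smul, mul_inv_cancel₀ (len_pos h).ne', one_smul]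

lemma nu_arc {p q x : Fin 3 → ℝ} (h0 : x ≠ 0) (h : x ∈ EC p q) : nu x ∈ arc p q := by
  obtain ⟨s, t, hs, ht, e⟩ := smul_EC (inv_pos.mpr (len_pos h0)).le h
  exact ⟨nu_mem h0, s, t, hs, ht, e⟩

lemma arc_EC {p q x : Fin 3 → ℝ} (h : x ∈ arc p q) : x ∈ EC p q := by
  obtain ⟨-, s, t, hs, ht, e⟩ := h
  exact ⟨s, t, hs, ht, e⟩

lemma embC_of {n : ℕ} {G : SimpleGraph (Fin n)} {v : Fin n → Fin 3 → ℝ} (h : IsSPT G v) :
    EmbC G v where
  ne0 := fun i => S2_ne0 (h.mem_sphere i)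
  inj := by
    intro i j c hc e
    have : c = 1 := S2_scale (h.mem_sphere i) (h.mem_sphere j) hc (fun m => by rw [e]; simp)
    subst this
    apply h.injective
    rw [e, one_smul]
  anti := by
    intro i j c hij hc e
    have : c = 1 := S2_scale (h.mem_sphere i) (h.mem_sphere j) hc (fun m => by rw [e]; simp)
    subst this
    apply h.not_antipodal i j hij
    rw [e, one_smul]
  meet := by
    intro i j k l x hij hkl hne hx h1 h2
    obtain ⟨m, m1, m2, e⟩ := h.edges_meet i j k l hij hkl hne (nu x) (nu_arc hx h1) (nu_arc hx h2)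
    exact ⟨m, m1, m2, len x, len_pos hx, by rw [← e]; exact len_smul_nu hx⟩
  vert := by
    intro i j m hij hm
    obtain ⟨s, t, hs, ht, e⟩ := hm
    exact h.vertex_edge i j m hij ⟨h.mem_sphere m, s, t, hs, ht, e⟩

lemma nu_skel {n : ℕ} {G : SimpleGraph (Fin n)} {v : Fin n → Fin 3 → ℝ} {z : Fin 3 → ℝ}
    (hz : z ≠ 0) : nu z ∈ skeleton G v ↔ z ∈ SkC G v := by
  constructor
  · rintro ⟨i, j, hij, h⟩
    refine ⟨hz, i, j, hij, ?_⟩
    rw [len_smul_nu hz]
    exact smul_EC (len_pos hz).le (arc_EC h)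
  · rintro ⟨-, i, j, hij, h⟩
    exact ⟨i, j, hij, nu_arc hz h⟩

/-- the cone over a component of the complement of the skeleton is open -/
lemma V_open {n : ℕ} {G : SimpleGraph (Fin n)} {v : Fin n → Fin 3 → ℝ} (h : EmbC G v)
    {y : Fin 3 → ℝ} :
    IsOpen {z | z ≠ 0 ∧ nu z ∈ connectedComponentIn (S2 \ skeleton G v) y} := by
  rw [Metric.isOpen_iff]
  rintro z ⟨hz, hzU⟩
  have hzW : z ∈ {x | x ≠ 0 ∧ x ∉ SkC G v} := by
    refine ⟨hz, fun hc => ?_⟩
    exact (connectedComponentIn_subset _ _ hzU).2 ((nu_skel hz).mpr hc)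
  obtain ⟨ε, hε, hball⟩ := Metric.isOpen_iff.mp (Wc_open h) z hzW
  refine ⟨ε, hε, fun w hw => ?_⟩
  have hpre : IsPreconnected (nu '' Metric.ball z ε) := by
    apply (convex_ball z ε).isPreconnected.image
    intro x hx
    exact (nu_cont (hball hx).1).continuousWithinAt
  have hsub : nu '' Metric.ball z ε ⊆ S2 \ skeleton G v := by
    rintro _ ⟨x, hx, rfl⟩
    obtain ⟨h1, h2⟩ := hball hx
    exact ⟨nu_mem h1, fun hc => h2 ((nu_skel h1).mp hc)⟩
  have hin : nu z ∈ nu '' Metric.ball z ε := ⟨z, Metric.mem_ball_self hε, rfl⟩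
  have := hpre.subset_connectedComponentIn hin hsub
  rw [← connectedComponentIn_eq hzU] at this
  exact ⟨(hball hw).1, this ⟨w, hw, rfl⟩⟩

theorem job1 : Job1 := by
  intro n G v hspt hfaces
  have hemb := embC_of hspt
  refine ⟨hspt.four_le, hemb, ?_, hspt.maximal⟩
  intro x hx0 hxS
  set U := connectedComponentIn (S2 \ skeleton G v) (nu x) with hU
  have hxX : nu x ∈ S2 \ skeleton G v := ⟨nu_mem hx0, fun hc => hxS ((nu_skel hx0).mp hc)⟩
  have hxU : nu x ∈ U := mem_connectedComponentIn hxX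
  obtain ⟨i, j, k, ⟨-, hij, hjk, hki, hA⟩, hD⟩ := hfaces U ⟨nu x, hxX, rfl⟩
  have hUX : U ⊆ S2 \ skeleton G v := connectedComponentIn_subset _ _
  -- arcs in the skeleton
  have hask : arc (v i) (v j) ∪ arc (v j) (v k) ∪ arc (v k) (v i) ⊆ skeleton G v := by
    rintro y ((hy | hy) | hy)
    · exact ⟨i, j, hij, hy⟩
    · exact ⟨j, k, hjk, hy⟩
    · exact ⟨k, i, hki, hy⟩
  have hab : ∀ y ∈ arc (v i) (v j) ∪ arc (v j) (v k) ∪ arc (v k) (v i),
      y ∈ EC (v i) (v j) ∨ y ∈ EC (v j) (v k) ∨ y ∈ EC (v k) (v i) := by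
    rintro y ((hy | hy) | hy)
    · exact Or.inl (arc_EC hy)
    · exact Or.inr (Or.inl (arc_EC hy))
    · exact Or.inr (Or.inr (arc_EC hy))
  set V : Set (Fin 3 → ℝ) := {z | z ≠ 0 ∧ nu z ∈ U} with hV
  have hVo : IsOpen V := V_open hemb
  have hclos : ∀ z, z ≠ 0 → z ∈ closure V → z ∉ V →
      nu z ∈ arc (v i) (v j) ∪ arc (v j) (v k) ∪ arc (v k) (v i) := by
    intro z hz hzc hzV
    rw [← hA]
    refine ⟨?_, fun hc => hzV ⟨hz, hc⟩⟩
    have := mem_closure_image (nu_cont hz) hzc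
    apply closure_mono _ this
    rintro _ ⟨w, hw, rfl⟩
    exact hw.2
  -- a preconnected set of nonzero points avoiding the three arcs, and meeting `V`, is in `V`
  have hkey : ∀ R : Set (Fin 3 → ℝ), IsPreconnected R → (∀ z ∈ R, z ≠ 0) →
      (∀ z ∈ R, ¬ (nu z ∈ arc (v i) (v j) ∪ arc (v j) (v k) ∪ arc (v k) (v i))) →
      (R ∩ V).Nonempty → R ⊆ V := by
    intro R hR h0 hno hne
    apply hR.subset_left_of_subset_union hVo isClosed_closure.isOpen_compl
      (v := (closure V)ᶜ) _ _ hne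
    · rw [Set.disjoint_left]
      intro z hz hz'
      exact hz' (subset_closure hz)
    · intro z hz
      by_cases hzV : z ∈ V
      · exact Or.inl hzV
      · right
        intro hc
        exact hno z hz (hclos z (h0 z hz) hc hzV)
  -- the component is on one side
  have hside : U ⊆ OC (v i) (v j) (v k) ∨ U ⊆ (CC (v i) (v j) (v k))ᶜ := by
    have hUp : IsPreconnected U := isPreconnected_connectedComponentIn
    apply IsPreconnected.subset_or_subset (OC_open hD) (CC_closed hD).isOpen_compl _ _ hUp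
    · rw [Set.disjoint_left]
      intro z hz hz'
      exact hz' (OC_sub_CC _ _ _ hz)
    · intro z hz
      by_cases h1 : z ∈ CC (v i) (v j) (v k)
      · left
        by_contra h2
        obtain ⟨hz1, hz2⟩ := hUX hz
        apply hz2
        rcases bdry hD h1 h2 with h3 | h3 | h3
        · obtain ⟨s, t, hs, ht, e⟩ := h3
          exact ⟨i, j, hij, hz1, s, t, hs, ht, e⟩
        · obtain ⟨s, t, hs, ht, e⟩ := h3
          exact ⟨j, k, hjk, hz1, s, t, hs, ht, e⟩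
        · obtain ⟨s, t, hs, ht, e⟩ := h3
          exact ⟨k, i, hki, hz1, s, t, hs, ht, e⟩
      · exact Or.inr h1
  have hxV : x ∈ V := ⟨hx0, hxU⟩
  have hVS : ∀ z ∈ V, z ∉ SkC G v := fun z hz hc => (hUX hz.2).2 ((nu_skel hz.1).mpr hc)
  rcases hside with hs | hs
  · -- inside
    have hxO : x ∈ OC (v i) (v j) (v k) := by
      rw [len_smul_nu hx0]; exact smul_OC (len_pos hx0) (hs hxU)
    have h0 : ∀ z ∈ OC (v i) (v j) (v k), z ≠ 0 := by
      rintro z hz rfl; exact zero_not_OC hD hz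
    have hOV : OC (v i) (v j) (v k) ⊆ V := by
      apply hkey _ (OC_convex _ _ _).isPreconnected h0 _ ⟨x, hxO, hxV⟩
      intro z hz hc
      apply EC_not_OC hD (hab _ hc)
      exact smul_OC (inv_pos.mpr (len_pos (h0 z hz))) hz
    rcases lt_or_gt_of_ne hD with hneg | hpos
    · refine ⟨i, k, j, ⟨hki.symm, hjk.symm, hij.symm, ?_, ?_⟩, hx0, Or.inl ⟨?_, ?_⟩⟩
      · rw [det3_swap]; simpa using hD
      · rintro z ⟨hz0, ⟨-, hz⟩ | ⟨hz, -⟩⟩
        · rw [OC_swap] at hz; exact hVS z (hOV hz)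
        · rw [det3_swap] at hz; linarith
      · rw [det3_swap]; linarith
      · rw [OC_swap]; exact hxO
    · refine ⟨i, j, k, ⟨hij, hjk, hki, hD, ?_⟩, hx0, Or.inl ⟨hpos, hxO⟩⟩
      rintro z ⟨hz0, ⟨-, hz⟩ | ⟨hz, -⟩⟩
      · exact hVS z (hOV hz)
      · linarith
  · -- outside
    have hxO : x ∉ CC (v i) (v j) (v k) := by
      intro hc
      exact hs hxU (smul_CC (inv_pos.mpr (len_pos hx0)).le hc)
    have h0 : ∀ z ∈ (CC (v i) (v j) (v k))ᶜ, z ≠ 0 := by
      rintro z hz rfl; exact hz (zero_mem_CC _ _ _)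
    have hOV : (CC (v i) (v j) (v k))ᶜ ⊆ V := by
      apply hkey _ (CCc_preconn hD) h0 _ ⟨x, hxO, hxV⟩
      intro z hz hc
      apply hz
      rw [len_smul_nu (h0 z hz)]
      exact smul_CC (len_pos (h0 z hz)).le (EC_sub (hab _ hc))
    rcases lt_or_gt_of_ne hD with hneg | hpos
    · refine ⟨i, j, k, ⟨hij, hjk, hki, hD, ?_⟩, hx0, Or.inr ⟨hneg, hxO⟩⟩
      rintro z ⟨hz0, ⟨hz, -⟩ | ⟨-, hz⟩⟩
      · linarith
      · exact hVS z (hOV hz)
    · refine ⟨i, k, j, ⟨hki.symm, hjk.symm, hij.symm, ?_, ?_⟩, hx0, Or.inr ⟨?_, ?_⟩⟩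
      · rw [det3_swap]; simpa using hD
      · rintro z ⟨hz0, ⟨hz, -⟩ | ⟨-, hz⟩⟩
        · rw [det3_swap] at hz; linarith
        · rw [CC_swap] at hz; exact hVS z (hOV hz)
      · rw [det3_swap]; linarith
      · rw [CC_swap]; exact hxO

end Pool.Agent.Q198.Snk
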