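import Pool.Agent.Q198.Snk.Base
import Pool.Agent.Q131.Snk.Stm2

/-! JOB 6 of the project on MP_731b42_co and MP_e680c3_co: the piecewise linear shear. -/

namespace Pool.Agent.Q198.Snk

open Set Filter Topology Helper479.Sink Pool.Agent.Q131.Snk

variable {d0 d1 : ℝ}

@[simp] lemma PLs_2 (x : Fin 3 → ℝ) : PLs d0 d1 x 2 = x 2 := rfl
lemma PLs_0 (x : Fin 3 → ℝ) : PLs d0 d1 x 0 = x 0 + min (x 2) 0 * d0 := rfl
lemma PLs_1 (x : Fin 3 → ℝ) : PLs d0 d1 x 1 = x 1 + min (x 2) 0 * d1 := rfl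

lemma ext3 {x y : Fin 3 → ℝ} (h0 : x 0 = y 0) (h1 : x 1 = y 1) (h2 : x 2 = y 2) : x = y := by
  ext i; fin_cases i
  · exact h0
  · exact h1
  · exact h2

lemma PLs_inv (x : Fin 3 → ℝ) : PLs (-d0) (-d1) (PLs d0 d1 x) = x := by
  apply ext3
  · rw [PLs_0, PLs_0, PLs_2]; ring
  · rw [PLs_1, PLs_1, PLs_2]; ring
  · rw [PLs_2, PLs_2]

lemma PLs_inv' (x : Fin 3 → ℝ) : PLs d0 d1 (PLs (-d0) (-d1) x) = x := by
  have := PLs_inv (d0 := -d0) (d1 := -d1) x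
  rwa [neg_neg, neg_neg] at this

lemma PLs_zero : PLs d0 d1 0 = 0 := by
  apply ext3
  · rw [PLs_0]; simp
  · rw [PLs_1]; simp
  · rw [PLs_2]

lemma PLs_ne {x : Fin 3 → ℝ} : PLs d0 d1 x ≠ 0 ↔ x ≠ 0 := by
  rw [not_iff_not]
  constructor
  · intro h
    rw [← PLs_inv (d0 := d0) (d1 := d1) x, h, PLs_zero]
  · rintro rfl; exact PLs_zero

lemma PLs_pos {x : Fin 3 → ℝ} (h : 0 ≤ x 2) : PLs d0 d1 x = x := by
  apply ext3
  · rw [PLs_0, min_eq_right h]; ring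
  · rw [PLs_1, min_eq_right h]; ring
  · rw [PLs_2]

lemma PLs_neg0 {x : Fin 3 → ℝ} (h : x 2 ≤ 0) : PLs d0 d1 x 0 = x 0 + x 2 * d0 := by
  rw [PLs_0, min_eq_left h]

lemma PLs_neg1 {x : Fin 3 → ℝ} (h : x 2 ≤ 0) : PLs d0 d1 x 1 = x 1 + x 2 * d1 := by
  rw [PLs_1, min_eq_left h]

/-- three vectors are in one closed half space -/
def Same (a b c : Fin 3 → ℝ) : Prop := (0 ≤ a 2 ∧ 0 ≤ b 2 ∧ 0 ≤ c 2) ∨ (a 2 ≤ 0 ∧ b 2 ≤ 0 ∧ c 2 ≤ 0)

lemma same_of {a b c : Fin 3 → ℝ} (h1 : 0 ≤ a 2 * b 2) (h2 : 0 ≤ b 2 * c 2) (h3 : 0 ≤ c 2 * a 2) :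
    Same a b c := by
  unfold Same
  by_contra hc
  push Not at hc
  obtain ⟨c1, c2⟩ := hc
  rcases lt_trichotomy (a 2) 0 with ha | ha | ha
  · have hb : b 2 ≤ 0 := by nlinarith
    have hc' : c 2 ≤ 0 := by nlinarith
    exact absurd hc' (not_le.mpr (c2 ha.le hb))
  · rcases lt_trichotomy (b 2) 0 with hb | hb | hb
    · have hc' : c 2 ≤ 0 := by nlinarith
      exact absurd hc' (not_le.mpr (c2 ha.le hb.le))
    · rcases le_total 0 (c 2) with h | h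
      · exact absurd h (not_le.mpr (c1 ha.ge hb.ge))
      · exact absurd h (not_le.mpr (c2 ha.le hb.le))
    · have hc' : 0 ≤ c 2 := by nlinarith
      exact absurd hc' (not_le.mpr (c1 ha.ge hb.le))
  · have hb : 0 ≤ b 2 := by nlinarith
    have hc' : 0 ≤ c 2 := by nlinarith
    exact absurd hc' (not_le.mpr (c1 ha.le hb))

lemma PLs_comb {a b c : Fin 3 → ℝ} (h : Same a b c) {s t u : ℝ} (hs : 0 ≤ s) (ht : 0 ≤ t)
    (hu : 0 ≤ u) : PLs d0 d1 (s • a + t • b + u • c) =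
      s • PLs d0 d1 a + t • PLs d0 d1 b + u • PLs d0 d1 c := by
  rcases h with ⟨h1, h2, h3⟩ | ⟨h1, h2, h3⟩
  · have h4 : 0 ≤ (s • a + t • b + u • c) 2 := by
      simp only [Pi.add_apply, Pi.smul_apply, smul_eq_mul]; positivity
    rw [PLs_pos h1, PLs_pos h2, PLs_pos h3, PLs_pos h4]
  · have h4 : (s • a + t • b + u • c) 2 ≤ 0 := by
      simp only [Pi.add_apply, Pi.smul_apply, smul_eq_mul]
      have := mul_nonneg hs (neg_nonneg.mpr h1)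
      have := mul_nonneg ht (neg_nonneg.mpr h2)
      have := mul_nonneg hu (neg_nonneg.mpr h3)
      linarith
    apply ext3
    · rw [PLs_neg0 h4]
      simp only [Pi.add_apply, Pi.smul_apply, smul_eq_mul]
      rw [PLs_neg0 h1, PLs_neg0 h2, PLs_neg0 h3]; ring
    · rw [PLs_neg1 h4]
      simp only [Pi.add_apply, Pi.smul_apply, smul_eq_mul]
      rw [PLs_neg1 h1, PLs_neg1 h2, PLs_neg1 h3]; ring
    · simp only [PLs_2, Pi.add_apply, Pi.smul_apply, smul_eq_mul]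

lemma PLs_smul {a : Fin 3 → ℝ} {s : ℝ} (hs : 0 ≤ s) : PLs d0 d1 (s • a) = s • PLs d0 d1 a := by
  have h : Same a a a := by
    rcases le_total 0 (a 2) with h | h
    · exact Or.inl ⟨h, h, h⟩
    · exact Or.inr ⟨h, h, h⟩
  have := PLs_comb (d0 := d0) (d1 := d1) h hs le_rfl le_rfl
  simpa using this

lemma PLs_det {a b c : Fin 3 → ℝ} (h : Same a b c) :
    det3 (PLs d0 d1 a) (PLs d0 d1 b) (PLs d0 d1 c) = det3 a b c := by
  rcases h with ⟨h1, h2, h3⟩ | ⟨h1, h2, h3⟩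
  · rw [PLs_pos h1, PLs_pos h2, PLs_pos h3]
  · unfold det3 hA
    rw [PLs_neg0 h1, PLs_neg0 h2, PLs_neg0 h3, PLs_neg1 h1, PLs_neg1 h2, PLs_neg1 h3]
    simp only [PLs_2]
    ring

lemma same_PLs {a b c : Fin 3 → ℝ} (h : Same a b c) :
    Same (PLs d0 d1 a) (PLs d0 d1 b) (PLs d0 d1 c) := h

lemma PLs_CC' {a b c x : Fin 3 → ℝ} (h : Same a b c) (hx : x ∈ CC a b c) :
    PLs d0 d1 x ∈ CC (PLs d0 d1 a) (PLs d0 d1 b) (PLs d0 d1 c) := by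
  obtain ⟨s, t, u, hs, ht, hu, rfl⟩ := hx
  exact ⟨s, t, u, hs, ht, hu, PLs_comb h hs ht hu⟩

lemma PLs_CC {a b c x : Fin 3 → ℝ} (h : Same a b c) :
    PLs d0 d1 x ∈ CC (PLs d0 d1 a) (PLs d0 d1 b) (PLs d0 d1 c) ↔ x ∈ CC a b c := by
  constructor
  · intro hx
    have := PLs_CC' (d0 := -d0) (d1 := -d1) (same_PLs h) hx
    rwa [PLs_inv, PLs_inv, PLs_inv, PLs_inv] at this
  · exact PLs_CC' h

lemma PLs_OC' {a b c x : Fin 3 → ℝ} (h : Same a b c) (hx : x ∈ OC a b c) :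
    PLs d0 d1 x ∈ OC (PLs d0 d1 a) (PLs d0 d1 b) (PLs d0 d1 c) := by
  obtain ⟨s, t, u, hs, ht, hu, rfl⟩ := hx
  exact ⟨s, t, u, hs, ht, hu, PLs_comb h hs.le ht.le hu.le⟩

lemma PLs_OC {a b c x : Fin 3 → ℝ} (h : Same a b c) :
    PLs d0 d1 x ∈ OC (PLs d0 d1 a) (PLs d0 d1 b) (PLs d0 d1 c) ↔ x ∈ OC a b c := by
  constructor
  · intro hx
    have := PLs_OC' (d0 := -d0) (d1 := -d1) (same_PLs h) hx
    rwa [PLs_inv, PLs_inv, PLs_inv, PLs_inv] at this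
  · exact PLs_OC' h

lemma same2 {a b : Fin 3 → ℝ} (h : 0 ≤ a 2 * b 2) : Same a b b := by
  apply same_of h
  · exact mul_self_nonneg _
  · rwa [mul_comm]

lemma PLs_EC' {a b x : Fin 3 → ℝ} (h : 0 ≤ a 2 * b 2) (hx : x ∈ EC a b) :
    PLs d0 d1 x ∈ EC (PLs d0 d1 a) (PLs d0 d1 b) := by
  obtain ⟨s, t, hs, ht, rfl⟩ := hx
  refine ⟨s, t, hs, ht, ?_⟩
  have := PLs_comb (d0 := d0) (d1 := d1) (same2 h) hs ht le_rfl
  simpa using this

lemma PLs_EC {a b x : Fin 3 → ℝ} (h : 0 ≤ a 2 * b 2) :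
    PLs d0 d1 x ∈ EC (PLs d0 d1 a) (PLs d0 d1 b) ↔ x ∈ EC a b := by
  constructor
  · intro hx
    have h' : 0 ≤ PLs d0 d1 a 2 * PLs d0 d1 b 2 := h
    have := PLs_EC' (d0 := -d0) (d1 := -d1) h' hx
    rwa [PLs_inv, PLs_inv, PLs_inv] at this
  · exact PLs_EC' h

lemma PLs_Reg {a b c x : Fin 3 → ℝ} (h : Same a b c) :
    PLs d0 d1 x ∈ Reg (PLs d0 d1 a) (PLs d0 d1 b) (PLs d0 d1 c) ↔ x ∈ Reg a b c := by
  show (_ ∧ _) ↔ (_ ∧ _)
  rw [PLs_det h, PLs_OC h, PLs_CC h, PLs_ne]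

section main

variable {n : ℕ} {G : SimpleGraph (Fin n)} {p : Fin n → Fin 3 → ℝ}

lemma PLs_SkC (hadj : ∀ i j, G.Adj i j → 0 ≤ p i 2 * p j 2) (x : Fin 3 → ℝ) :
    x ∈ SkC G p ↔ PLs d0 d1 x ∈ SkC G (fun i => PLs d0 d1 (p i)) := by
  constructor
  · rintro ⟨h0, i, j, hij, h⟩
    exact ⟨PLs_ne.mpr h0, i, j, hij, (PLs_EC (hadj i j hij)).mpr h⟩
  · rintro ⟨h0, i, j, hij, h⟩
    exact ⟨PLs_ne.mp h0, i, j, hij, (PLs_EC (hadj i j hij)).mp h⟩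

lemma Fc_same (hadj : ∀ i j, G.Adj i j → 0 ≤ p i 2 * p j 2) {a b c : Fin n} (h1 : G.Adj a b)
    (h2 : G.Adj b c) (h3 : G.Adj c a) : Same (p a) (p b) (p c) :=
  same_of (hadj _ _ h1) (hadj _ _ h2) (hadj _ _ h3)

lemma PLs_Fc (hadj : ∀ i j, G.Adj i j → 0 ≤ p i 2 * p j 2) {a b c : Fin n} :
    Fc G p a b c ↔ Fc G (fun i => PLs d0 d1 (p i)) a b c := by
  constructor
  · intro h
    have hs := Fc_same hadj h.ab h.bc h.ca
    refine ⟨h.ab, h.bc, h.ca, ?_, ?_⟩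
    · rw [PLs_det hs]; exact h.det_ne
    · intro x hx hS
      rw [← PLs_inv' (d0 := d0) (d1 := d1) x] at hx hS
      rw [← PLs_SkC hadj] at hS
      exact h.empty _ ((PLs_Reg hs).mp hx) hS
  · intro h
    have hs := Fc_same hadj h.ab h.bc h.ca
    have hd := h.det_ne
    rw [PLs_det hs] at hd
    refine ⟨h.ab, h.bc, h.ca, hd, ?_⟩
    intro x hx hS
    exact h.empty _ ((PLs_Reg (d0 := d0) (d1 := d1) hs).mpr hx) ((PLs_SkC hadj x).mp hS)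

theorem job6 : Job6 := by
  intro n G p hT hadj _ d0 d1
  refine ⟨⟨hT.four, ⟨?_, ?_, ?_, ?_, ?_⟩, ?_, hT.card⟩, fun a b c => PLs_Fc hadj, ?_,
    PLs_SkC hadj⟩
  · intro i; exact PLs_ne.mpr (hT.emb.ne0 i)
  · intro i j c hc h
    apply hT.emb.inj i j c hc
    have h' : PLs d0 d1 (p i) = c • PLs d0 d1 (p j) := h
    rw [← PLs_smul hc.le] at h'
    rw [← PLs_inv (d0 := d0) (d1 := d1) (p i), h', PLs_inv]
  · intro i j c hij hc h
    have h' : PLs d0 d1 (p i) = -(c • PLs d0 d1 (p j)) := h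
    have hz : p i 2 = - (c * p j 2) := by
      have := congrFun h' 2
      simpa using this
    have h1 := hadj i j hij
    have hj : p j 2 = 0 := by
      rw [hz] at h1
      have h2 : c * (p j 2) ^ 2 ≤ 0 := by linarith
      have h3 : (p j 2) ^ 2 ≤ 0 := by
        by_contra h4
        push Not at h4
        have := mul_pos hc h4
        linarith
      exact pow_eq_zero_iff (two_ne_zero) |>.mp (le_antisymm h3 (sq_nonneg _))
    have hi : p i 2 = 0 := by rw [hz, hj]; simp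
    rw [PLs_pos hi.ge, PLs_pos hj.ge] at h'
    exact hT.emb.anti i j c hij hc h'
  · intro i j k l x hij hkl hne hx h1 h2
    rw [← PLs_inv' (d0 := d0) (d1 := d1) x] at hx h1 h2
    obtain ⟨m, m1, m2, c, hc, e⟩ := hT.emb.meet i j k l _ hij hkl hne (PLs_ne.mp hx)
      ((PLs_EC (hadj i j hij)).mp h1) ((PLs_EC (hadj k l hkl)).mp h2)
    refine ⟨m, m1, m2, c, hc, ?_⟩
    rw [← PLs_smul hc.le, ← e, PLs_inv']
  · intro i j m hij hm
    exact hT.emb.vert i j m hij ((PLs_EC (hadj i j hij)).mp hm)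
  · intro x hx hS
    rw [← PLs_inv' (d0 := d0) (d1 := d1) x] at hx hS
    rw [← PLs_SkC hadj] at hS
    obtain ⟨a, b, c, hF, hR⟩ := hT.cover _ (PLs_ne.mp hx) hS
    refine ⟨a, b, c, (PLs_Fc hadj).mp hF, ?_⟩
    rw [← PLs_inv' (d0 := d0) (d1 := d1) x]
    exact (PLs_Reg (Fc_same hadj hF.ab hF.bc hF.ca)).mpr hR
  · intro a b c hF
    exact PLs_det (Fc_same hadj hF.ab hF.bc hF.ca)

end main

end Pool.Agent.Q198.Snk
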