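import Pool.Agent.Q198.Snk.Base

/-! JOB 2 of the project on MP_731b42_co and MP_e680c3_co: the regions of the faces of a
triangulation, in the language of cones. -/

namespace Pool.Agent.Q198.Snk

open Set Filter Topology Helper479.Sink Pool.Agent.Q131.Snk

variable {n : ℕ} {G : SimpleGraph (Fin n)} {p : Fin n → Fin 3 → ℝ}

lemma Fc_rot {a b c : Fin n} (h : Fc G p a b c) : Fc G p b c a := by
  refine ⟨h.bc, h.ca, h.ab, ?_, ?_⟩
  · rw [det3_rot]; exact h.det_ne
  · rw [Reg_rot]; exact h.empty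

lemma Reg_pos {a b c : Fin 3 → ℝ} (h : 0 < det3 a b c) : Reg a b c = OC a b c := by
  ext x
  constructor
  · rintro ⟨-, ⟨-, h2⟩ | ⟨h1, -⟩⟩
    · exact h2
    · linarith
  · intro hx
    refine ⟨?_, Or.inl ⟨h, hx⟩⟩
    rintro rfl
    exact zero_not_OC h.ne' hx

lemma Reg_neg {a b c : Fin 3 → ℝ} (h : det3 a b c < 0) : Reg a b c = (CC a b c)ᶜ := by
  ext x
  constructor
  · rintro ⟨-, ⟨h1, -⟩ | ⟨-, h2⟩⟩
    · linarith
    · exact h2
  · intro hx
    refine ⟨?_, Or.inr ⟨h, hx⟩⟩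
    rintro rfl
    exact hx (zero_mem_CC _ _ _)

lemma Reg_preconn {a b c : Fin 3 → ℝ} (h : det3 a b c ≠ 0) : IsPreconnected (Reg a b c) := by
  rcases lt_or_gt_of_ne h with h1 | h1
  · rw [Reg_neg h1]; exact CCc_preconn h
  · rw [Reg_pos h1]; exact (OC_convex _ _ _).isPreconnected

lemma edge_SkC {i j : Fin n} (hij : G.Adj i j) {x : Fin 3 → ℝ} (hx : x ≠ 0)
    (h : x ∈ EC (p i) (p j)) : x ∈ SkC G p := ⟨hx, i, j, hij, h⟩

lemma vertex_SkC (he : EmbC G p) {i j : Fin n} (hij : G.Adj i j) : p i ∈ SkC G p :=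
  ⟨he.ne0 i, i, j, hij, 1, 0, zero_le_one, le_rfl, by simp⟩

lemma bdry_SkC {a b c : Fin n} (h : Fc G p a b c) {x : Fin 3 → ℝ} (hx0 : x ≠ 0)
    (hx : x ∈ CC (p a) (p b) (p c)) (hx' : x ∉ OC (p a) (p b) (p c)) : x ∈ SkC G p := by
  rcases bdry h.det_ne hx hx' with h1 | h1 | h1
  · exact edge_SkC h.ab hx0 h1
  · exact edge_SkC h.bc hx0 h1
  · exact edge_SkC h.ca hx0 h1

/-- if two regions meet, the first contains the second -/
lemma Reg_sub {a b c a' b' c' : Fin n} {x : Fin 3 → ℝ} (h : Fc G p a b c) (h' : Fc G p a' b' c')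
    (hx : x ∈ Reg (p a) (p b) (p c)) (hx' : x ∈ Reg (p a') (p b') (p c')) :
    Reg (p a') (p b') (p c') ⊆ Reg (p a) (p b) (p c) := by
  have hpre := Reg_preconn h'.det_ne
  have hcov : Reg (p a') (p b') (p c') ⊆ OC (p a) (p b) (p c) ∪ (CC (p a) (p b) (p c))ᶜ := by
    intro y hy
    by_cases h1 : y ∈ OC (p a) (p b) (p c)
    · exact Or.inl h1
    · right
      intro h2
      exact h'.empty y hy (bdry_SkC h hy.1 h2 h1)
  have hdis : Disjoint (OC (p a) (p b) (p c)) (CC (p a) (p b) (p c))ᶜ := by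
    rw [Set.disjoint_left]
    intro z hz hz'
    exact hz' (OC_sub_CC _ _ _ hz)
  rcases lt_or_gt_of_ne h.det_ne with h1 | h1
  · rw [Reg_neg h1] at hx ⊢
    exact hpre.subset_right_of_subset_union (OC_open h.det_ne) (CC_closed h.det_ne).isOpen_compl
      hdis hcov ⟨x, hx', hx⟩
  · rw [Reg_pos h1] at hx ⊢
    exact hpre.subset_left_of_subset_union (OC_open h.det_ne) (CC_closed h.det_ne).isOpen_compl
      hdis hcov ⟨x, hx', hx⟩

lemma Reg_eq {a b c a' b' c' : Fin n} {x : Fin 3 → ℝ} (h : Fc G p a b c) (h' : Fc G p a' b' c')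
    (hx : x ∈ Reg (p a) (p b) (p c)) (hx' : x ∈ Reg (p a') (p b') (p c')) :
    Reg (p a') (p b') (p c') = Reg (p a) (p b) (p c) :=
  Subset.antisymm (Reg_sub h h' hx hx') (Reg_sub h' h hx' hx)

lemma CC_sub_of_OC_sub {a b c a' b' c' : Fin 3 → ℝ} (h : det3 a b c ≠ 0)
    (hs : OC a' b' c' ⊆ OC a b c) : CC a' b' c' ⊆ CC a b c := by
  rintro x ⟨α, β, γ, hα, hβ, hγ, rfl⟩
  set x := α • a' + β • b' + γ • c' with hx
  set w : Fin 3 → ℝ := a' + b' + c' with hw
  have hlim : Tendsto (fun ε : ℝ => x + ε • w) (𝓝[>] 0) (𝓝 x) := by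
    have hc : Continuous (fun ε : ℝ => x + ε • w) := by fun_prop
    have := (hc.tendsto 0).mono_left (nhdsWithin_le_nhds (s := Ioi (0:ℝ)))
    simpa using this
  apply (CC_closed h).mem_of_tendsto hlim
  filter_upwards [self_mem_nhdsWithin] with ε hε
  have hε' : (0:ℝ) < ε := hε
  apply OC_sub_CC
  apply hs
  refine ⟨α + ε, β + ε, γ + ε, by positivity, by positivity, by positivity, ?_⟩
  rw [hx, hw]
  simp only [add_smul, smul_add]; abel

lemma CC_eq_of_Reg_eq {a b c a' b' c' : Fin 3 → ℝ} (h : det3 a b c ≠ 0) (h' : det3 a' b' c' ≠ 0)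
    (hR : Reg a' b' c' = Reg a b c) :
    CC a' b' c' = CC a b c ∧ (0 < det3 a b c ↔ 0 < det3 a' b' c') := by
  have hmix : ∀ {a b c a' b' c' : Fin 3 → ℝ}, 0 < det3 a b c → det3 a' b' c' < 0 →
      Reg a' b' c' = Reg a b c → False := by
    intro a b c a' b' c' h1 h2 hR
    rw [Reg_pos h1, Reg_neg h2] at hR
    have m1 : (1:ℝ) • a' + (-1:ℝ) • b' + (0:ℝ) • c' ∈ (CC a' b' c')ᶜ := by
      intro hc
      have := ((mem_CC h2.ne).mp hc).2.1
      rw [(k_comb h2.ne 1 (-1) 0).2.1] at this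
      linarith
    have m2 : (-1:ℝ) • a' + (1:ℝ) • b' + (0:ℝ) • c' ∈ (CC a' b' c')ᶜ := by
      intro hc
      have := ((mem_CC h2.ne).mp hc).1
      rw [(k_comb h2.ne (-1) 1 0).1] at this
      linarith
    rw [hR, mem_OC h1.ne'] at m1 m2
    have m3 := m1.1
    have m4 := m2.1
    have e : (-1:ℝ) • a' + (1:ℝ) • b' + (0:ℝ) • c' =
        (-1:ℝ) • ((1:ℝ) • a' + (-1:ℝ) • b' + (0:ℝ) • c') + (0:ℝ) • (0 : Fin 3 → ℝ) := by
      simp only [smul_add, smul_smul]; norm_num
    rw [e, k1_lin] at m4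
    linarith
  rcases lt_or_gt_of_ne h with h1 | h1 <;> rcases lt_or_gt_of_ne h' with h2 | h2
  · rw [Reg_neg h1, Reg_neg h2] at hR
    exact ⟨compl_injective hR, ⟨fun h3 => absurd h3 (not_lt.mpr h1.le),
      fun h3 => absurd h3 (not_lt.mpr h2.le)⟩⟩
  · exact (hmix h2 h1 hR.symm).elim
  · exact (hmix h1 h2 hR).elim
  · rw [Reg_pos h1, Reg_pos h2] at hR
    exact ⟨Subset.antisymm (CC_sub_of_OC_sub h hR.subset) (CC_sub_of_OC_sub h' hR.symm.subset),
      ⟨fun _ => h2, fun _ => h1⟩⟩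

/-- extreme rays -/
lemma extreme (he : EmbC G p) {a b c a' b' c' : Fin n} (h : Fc G p a b c)
    (hCC : CC (p a') (p b') (p c') = CC (p a) (p b) (p c)) : a = a' ∨ a = b' ∨ a = c' := by
  have ha : p a ∈ CC (p a') (p b') (p c') := by
    rw [hCC]; exact ⟨1, 0, 0, zero_le_one, le_rfl, le_rfl, by simp⟩
  have hq : ∀ m, (m = a' ∨ m = b' ∨ m = c') → p m ∈ CC (p a) (p b) (p c) := by
    intro m hm
    rw [← hCC]
    rcases hm with rfl | rfl | rfl
    · exact ⟨1, 0, 0, zero_le_one, le_rfl, le_rfl, by simp⟩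
    · exact ⟨0, 1, 0, le_rfl, zero_le_one, le_rfl, by simp⟩
    · exact ⟨0, 0, 1, le_rfl, le_rfl, zero_le_one, by simp⟩
  have hray : ∀ m, (m = a' ∨ m = b' ∨ m = c') → k2 (p a) (p b) (p c) (p m) = 0 →
      k3 (p a) (p b) (p c) (p m) = 0 → a = m := by
    intro m hm h2 h3
    have e := cramer' h.det_ne (p m)
    rw [h2, h3] at e
    simp only [zero_smul, add_zero] at e
    have hk := ((mem_CC h.det_ne).mp (hq m hm)).1
    rcases hk.eq_or_lt with h4 | h4
    · exfalso
      rw [← h4, zero_smul] at e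
      exact he.ne0 m e
    · exact (he.inj m a _ h4 e).symm
  obtain ⟨α, β, γ, hα, hβ, hγ, e⟩ := ha
  have qa := (mem_CC h.det_ne).mp (hq a' (Or.inl rfl))
  have qb := (mem_CC h.det_ne).mp (hq b' (Or.inr (Or.inl rfl)))
  have qc := (mem_CC h.det_ne).mp (hq c' (Or.inr (Or.inr rfl)))
  have e' : p a = (1:ℝ) • (α • p a' + β • p b') + γ • p c' := by rw [e]; simp
  have k2a : k2 (p a) (p b) (p c) (p a) = 0 := by
    have := (k_comb h.det_ne 1 0 0).2.1
    simpa using this
  have k3a : k3 (p a) (p b) (p c) (p a) = 0 := by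
    have := (k_comb h.det_ne 1 0 0).2.2
    simpa using this
  have s2 : α * k2 (p a) (p b) (p c) (p a') + β * k2 (p a) (p b) (p c) (p b') +
      γ * k2 (p a) (p b) (p c) (p c') = 0 := by
    have t2 := k2_lin (p a) (p b) (p c) 1 γ (α • p a' + β • p b') (p c')
    have t3 := k2_lin (p a) (p b) (p c) α β (p a') (p b')
    rw [← e', t3, k2a] at t2
    linarith
  have s3 : α * k3 (p a) (p b) (p c) (p a') + β * k3 (p a) (p b) (p c) (p b') +
      γ * k3 (p a) (p b) (p c) (p c') = 0 := by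
    have t2 := k3_lin (p a) (p b) (p c) 1 γ (α • p a' + β • p b') (p c')
    have t3 := k3_lin (p a) (p b) (p c) α β (p a') (p b')
    rw [← e', t3, k3a] at t2
    linarith
  have a2 := mul_nonneg hα qa.2.1
  have b2 := mul_nonneg hβ qb.2.1
  have c2 := mul_nonneg hγ qc.2.1
  have a3 := mul_nonneg hα qa.2.2
  have b3 := mul_nonneg hβ qb.2.2
  have c3 := mul_nonneg hγ qc.2.2
  rcases hα.eq_or_lt with h1 | h1
  · rcases hβ.eq_or_lt with h2 | h2
    · rcases hγ.eq_or_lt with h3 | h3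
      · exfalso
        rw [← h1, ← h2, ← h3] at e
        apply he.ne0 a; rw [e]; simp
      · right; right
        apply hray c' (Or.inr (Or.inr rfl))
        · have : γ * k2 (p a) (p b) (p c) (p c') = 0 := by linarith
          exact (mul_eq_zero.mp this).resolve_left h3.ne'
        · have : γ * k3 (p a) (p b) (p c) (p c') = 0 := by linarith
          exact (mul_eq_zero.mp this).resolve_left h3.ne'
    · right; left
      apply hray b' (Or.inr (Or.inl rfl))
      · have : β * k2 (p a) (p b) (p c) (p b') = 0 := by linarith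
        exact (mul_eq_zero.mp this).resolve_left h2.ne'
      · have : β * k3 (p a) (p b) (p c) (p b') = 0 := by linarith
        exact (mul_eq_zero.mp this).resolve_left h2.ne'
  · left
    apply hray a' (Or.inl rfl)
    · have : α * k2 (p a) (p b) (p c) (p a') = 0 := by linarith
      exact (mul_eq_zero.mp this).resolve_left h1.ne'
    · have : α * k3 (p a) (p b) (p c) (p a') = 0 := by linarith
      exact (mul_eq_zero.mp this).resolve_left h1.ne'

lemma faces_eq (he : EmbC G p) {a b c a' b' c' : Fin n} {x : Fin 3 → ℝ} (h : Fc G p a b c)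
    (h' : Fc G p a' b' c') (hx : x ∈ Reg (p a) (p b) (p c)) (hx' : x ∈ Reg (p a') (p b') (p c')) :
    (a' = a ∧ b' = b ∧ c' = c) ∨ (a' = b ∧ b' = c ∧ c' = a) ∨ (a' = c ∧ b' = a ∧ c' = b) := by
  obtain ⟨hCC, hsign⟩ := CC_eq_of_Reg_eq h.det_ne h'.det_ne (Reg_eq h h' hx hx')
  have e1 := extreme he h hCC
  have e2 := extreme he (Fc_rot h) (hCC.trans (CC_rot _ _ _).symm)
  have e3 := extreme he (Fc_rot (Fc_rot h))
    ((hCC.trans (CC_rot _ _ _).symm).trans (CC_rot _ _ _).symm)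
  have n1 := h.ab.ne
  have n2 := h.bc.ne
  have n3 := h.ca.ne
  have hodd : ¬ (0 < det3 (p a) (p b) (p c) ↔ 0 < - det3 (p a) (p b) (p c)) := by
    have := h.det_ne
    rcases lt_or_gt_of_ne this with h1 | h1
    · intro h2
      have := h2.mpr (by linarith)
      linarith
    · intro h2
      have := h2.mp h1
      linarith
  have r1 : det3 (p a) (p c) (p b) = - det3 (p a) (p b) (p c) := det3_swap _ _ _
  have r2 : det3 (p b) (p a) (p c) = - det3 (p a) (p b) (p c) := det3_swap' _ _ _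
  have r3 : det3 (p c) (p b) (p a) = - det3 (p a) (p b) (p c) := by unfold det3 hA; ring
  rcases e1 with e1 | e1 | e1 <;> rcases e2 with e2 | e2 | e2 <;> rcases e3 with e3 | e3 | e3 <;>
    first
    | exact absurd (e1.trans e2.symm) n1
    | exact absurd (e2.trans e3.symm) n2
    | exact absurd (e3.trans e1.symm) n3
    | exact Or.inl ⟨e1.symm, e2.symm, e3.symm⟩
    | exact Or.inr (Or.inl ⟨e2.symm, e3.symm, e1.symm⟩)
    | exact Or.inr (Or.inr ⟨e3.symm, e1.symm, e2.symm⟩)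
    | (exfalso; apply hodd; rw [← e1, ← e2, ← e3, r1] at hsign; exact hsign)
    | (exfalso; apply hodd; rw [← e1, ← e2, ← e3, r2] at hsign; exact hsign)
    | (exfalso; apply hodd; rw [← e1, ← e2, ← e3, r3] at hsign; exact hsign)

/-- the point slightly to the left of the middle of an edge -/
def xe (u v : Fin 3 → ℝ) (ε : ℝ) : Fin 3 → ℝ := u + v + ε • cr u v

lemma xe_cont (u v : Fin 3 → ℝ) : Continuous (xe u v) := by unfold xe; fun_prop

lemma xe_tendsto (u v : Fin 3 → ℝ) : Tendsto (xe u v) (𝓝[>] 0) (𝓝 (u + v)) := by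
  have := ((xe_cont u v).tendsto 0).mono_left (nhdsWithin_le_nhds (s := Ioi (0:ℝ)))
  simpa [xe] using this

lemma det3_xe (u v : Fin 3 → ℝ) (ε : ℝ) : det3 u v (xe u v ε) = ε * det3 u v (cr u v) := by
  simp only [det3, hA, xe, Pi.add_apply, Pi.smul_apply, smul_eq_mul]; ring

lemma k_mid {u v w : Fin 3 → ℝ} (h : det3 u v w ≠ 0) :
    k1 u v w (u + v) = 1 ∧ k2 u v w (u + v) = 1 := by
  have := k_comb h 1 1 0
  simp only [one_smul, zero_smul, add_zero] at this
  exact ⟨this.1, this.2.1⟩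

/-- the nearby points are in the region of a face with this oriented edge -/
lemma xe_Reg (he : EmbC G p) {a b c : Fin n} (h : Fc G p a b c) :
    ∀ᶠ ε in 𝓝[>] (0:ℝ), xe (p a) (p b) ε ∈ Reg (p a) (p b) (p c) := by
  have hN := EmbC.det_pos he h.ab
  have h1 : ∀ᶠ ε in 𝓝[>] (0:ℝ), 0 < k1 (p a) (p b) (p c) (xe (p a) (p b) ε) := by
    have := ((k1_cont (p a) (p b) (p c)).tendsto _).comp (xe_tendsto (p a) (p b))
    rw [(k_mid h.det_ne).1] at this
    exact this.eventually (lt_mem_nhds zero_lt_one)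
  have h2 : ∀ᶠ ε in 𝓝[>] (0:ℝ), 0 < k2 (p a) (p b) (p c) (xe (p a) (p b) ε) := by
    have := ((k2_cont (p a) (p b) (p c)).tendsto _).comp (xe_tendsto (p a) (p b))
    rw [(k_mid h.det_ne).2] at this
    exact this.eventually (lt_mem_nhds zero_lt_one)
  filter_upwards [h1, h2, self_mem_nhdsWithin] with ε e1 e2 e3
  have e3' : (0:ℝ) < ε := e3
  have hk : k3 (p a) (p b) (p c) (xe (p a) (p b) ε) =
      ε * det3 (p a) (p b) (cr (p a) (p b)) / det3 (p a) (p b) (p c) := by
    unfold k3; rw [det3_xe]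
  rcases lt_or_gt_of_ne h.det_ne with hs | hs
  · rw [Reg_neg hs]
    intro hc
    have := ((mem_CC h.det_ne).mp hc).2.2
    rw [hk] at this
    have h4 : ε * det3 (p a) (p b) (cr (p a) (p b)) / det3 (p a) (p b) (p c) < 0 :=
      div_neg_of_pos_of_neg (by positivity) hs
    linarith
  · rw [Reg_pos hs, mem_OC h.det_ne]
    exact ⟨e1, e2, by rw [hk]; positivity⟩

/-- the nearby points on the other side are not in the region -/
lemma xe_not_Reg (he : EmbC G p) {a b c : Fin n} (h : Fc G p b a c) :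
    ∀ᶠ ε in 𝓝[>] (0:ℝ), xe (p a) (p b) ε ∉ Reg (p b) (p a) (p c) := by
  have hN := EmbC.det_pos he h.ab.symm
  have h1 : ∀ᶠ ε in 𝓝[>] (0:ℝ), 0 < k1 (p b) (p a) (p c) (xe (p a) (p b) ε) := by
    have := ((k1_cont (p b) (p a) (p c)).tendsto _).comp (xe_tendsto (p a) (p b))
    rw [add_comm (p a) (p b), (k_mid h.det_ne).1] at this
    exact this.eventually (lt_mem_nhds zero_lt_one)
  have h2 : ∀ᶠ ε in 𝓝[>] (0:ℝ), 0 < k2 (p b) (p a) (p c) (xe (p a) (p b) ε) := by
    have := ((k2_cont (p b) (p a) (p c)).tendsto _).comp (xe_tendsto (p a) (p b))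
    rw [add_comm (p a) (p b), (k_mid h.det_ne).2] at this
    exact this.eventually (lt_mem_nhds zero_lt_one)
  filter_upwards [h1, h2, self_mem_nhdsWithin] with ε e1 e2 e3
  have e3' : (0:ℝ) < ε := e3
  have hk : k3 (p b) (p a) (p c) (xe (p a) (p b) ε) =
      - (ε * det3 (p a) (p b) (cr (p a) (p b))) / det3 (p b) (p a) (p c) := by
    unfold k3
    rw [← det3_xe]
    congr 1
    unfold det3 hA; ring
  rcases lt_or_gt_of_ne h.det_ne with hs | hs
  · rw [Reg_neg hs]
    intro hc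
    apply hc
    rw [mem_CC h.det_ne]
    refine ⟨e1.le, e2.le, ?_⟩
    rw [hk]
    apply div_nonneg_of_nonpos _ hs.le
    have : 0 < ε * det3 (p a) (p b) (cr (p a) (p b)) := by positivity
    linarith
  · rw [Reg_pos hs]
    intro hc
    have := ((mem_OC h.det_ne).mp hc).2.2
    rw [hk] at this
    have h4 : - (ε * det3 (p a) (p b) (cr (p a) (p b))) / det3 (p b) (p a) (p c) < 0 := by
      apply div_neg_of_neg_of_pos _ hs
      have : 0 < ε * det3 (p a) (p b) (cr (p a) (p b)) := by positivity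
      linarith
    linarith

theorem job2c : Job2c := by
  intro n G p hT a b c a' b' c' x h h' hx hx'
  exact faces_eq hT.emb h h' hx hx'

theorem job2b : Job2b := by
  intro n G p hT a b c c' h h'
  obtain ⟨ε, h1, h2⟩ := ((xe_Reg hT.emb h).and (xe_Reg hT.emb h')).exists
  rcases faces_eq hT.emb h h' h1 h2 with ⟨-, -, h3⟩ | ⟨h3, -, -⟩ | ⟨-, h3, -⟩
  · exact h3.symm
  · exact absurd h3 h.ab.ne
  · exact absurd h3.symm h.ab.ne

/-- middle of an edge on another edge: the edges are equal -/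
lemma mid_edge (he : EmbC G p) {a b i j : Fin n} (hab : G.Adj a b) (hij : G.Adj i j)
    (h : p a + p b ∈ EC (p i) (p j)) : s(a, b) = s(i, j) := by
  by_contra hne
  have hN := EmbC.det_pos he hab
  have hm0 : p a + p b ≠ 0 := by
    intro h0
    apply he.anti a b 1 hab one_pos
    rw [one_smul]; exact eq_neg_of_add_eq_zero_left h0
  obtain ⟨m, hm, -, c, hc, e⟩ := he.meet a b i j (p a + p b) hab hij hne hm0
    ⟨1, 1, zero_le_one, zero_le_one, by simp⟩ h
  have hd : det3 (p a + p b) (p m) (cr (p a) (p b)) = 0 := by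
    rw [e]; unfold det3 hA; simp only [Pi.smul_apply, smul_eq_mul]; ring
  rw [Sym2.mem_iff] at hm
  rcases hm with rfl | rfl
  · have : det3 (p m + p b) (p m) (cr (p m) (p b)) = - det3 (p m) (p b) (cr (p m) (p b)) := by
      simp only [det3, hA, Pi.add_apply]; ring
    rw [this] at hd; linarith
  · have : det3 (p a + p m) (p m) (cr (p a) (p m)) = det3 (p a) (p m) (cr (p a) (p m)) := by
      simp only [det3, hA, Pi.add_apply]; ring
    rw [this] at hd; linarith

/-- the nearby points are not on the skeleton -/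
lemma xe_not_Sk (he : EmbC G p) {a b : Fin n} (hab : G.Adj a b) :
    ∀ᶠ ε in 𝓝[>] (0:ℝ), xe (p a) (p b) ε ∉ SkC G p ∧ xe (p a) (p b) ε ≠ 0 := by
  have hN := EmbC.det_pos he hab
  have hm0 : p a + p b ≠ 0 := by
    intro h0
    apply he.anti a b 1 hab one_pos
    rw [one_smul]; exact eq_neg_of_add_eq_zero_left h0
  have h0 : ∀ᶠ ε in 𝓝[>] (0:ℝ), xe (p a) (p b) ε ≠ 0 :=
    (xe_tendsto (p a) (p b)).eventually (isOpen_compl_singleton.mem_nhds hm0)
  have h1 : ∀ q : Fin n × Fin n, ∀ᶠ ε in 𝓝[>] (0:ℝ),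
      G.Adj q.1 q.2 → xe (p a) (p b) ε ∉ EC (p q.1) (p q.2) := by
    rintro ⟨i, j⟩
    by_cases hij : G.Adj i j
    · by_cases hs : p a + p b ∈ EC (p i) (p j)
      · have hq := mid_edge he hab hij hs
        filter_upwards [self_mem_nhdsWithin] with ε hε _ hc
        have hε' : (0:ℝ) < ε := hε
        have hd : det3 (p i) (p j) (xe (p a) (p b) ε) = 0 := by
          obtain ⟨s, t, -, -, e⟩ := hc
          rw [e]; unfold det3 hA; simp only [Pi.add_apply, Pi.smul_apply, smul_eq_mul]; ring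
        have hd' := det3_xe (p a) (p b) ε
        have hpos : 0 < ε * det3 (p a) (p b) (cr (p a) (p b)) := by positivity
        rcases Sym2.eq_iff.mp hq with ⟨rfl, rfl⟩ | ⟨rfl, rfl⟩
        · linarith
        · have : det3 (p b) (p a) (xe (p a) (p b) ε) = - det3 (p a) (p b) (xe (p a) (p b) ε) := by
            unfold det3 hA; ring
          linarith
      · have hcl := EC_closed (EmbC.det_pos he hij)
        filter_upwards [(xe_tendsto (p a) (p b)).eventually (hcl.isOpen_compl.mem_nhds hs)] with ε hε _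
        exact hε
    · exact Eventually.of_forall fun ε h => absurd h hij
  have h2 : ∀ᶠ ε in 𝓝[>] (0:ℝ), ∀ q : Fin n × Fin n,
      G.Adj q.1 q.2 → xe (p a) (p b) ε ∉ EC (p q.1) (p q.2) := eventually_all.mpr h1
  filter_upwards [h0, h2] with ε e0 e2
  refine ⟨?_, e0⟩
  rintro ⟨-, i, j, hij, hc⟩
  exact e2 (i, j) hij hc

theorem job2a : Job2a := by
  intro n G p hT a b hab
  have he := hT.emb
  have hN := EmbC.det_pos he hab
  have hm0 : p a + p b ≠ 0 := by
    intro h0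
    apply he.anti a b 1 hab one_pos
    rw [one_smul]; exact eq_neg_of_add_eq_zero_left h0
  -- a face whose region contains the nearby points frequently
  obtain ⟨⟨i, j, k⟩, hf⟩ : ∃ q : Fin n × Fin n × Fin n, ∃ᶠ ε in 𝓝[>] (0:ℝ),
      Fc G p q.1 q.2.1 q.2.2 ∧ xe (p a) (p b) ε ∈ Reg (p q.1) (p q.2.1) (p q.2.2) := by
    by_contra hcon
    push Not at hcon
    have h1 : ∀ q : Fin n × Fin n × Fin n, ∀ᶠ ε in 𝓝[>] (0:ℝ),
        ¬ (Fc G p q.1 q.2.1 q.2.2 ∧ xe (p a) (p b) ε ∈ Reg (p q.1) (p q.2.1) (p q.2.2)) := by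
      intro q
      have := hcon q
      simpa [Filter.Frequently] using this
    have h2 := eventually_all.mpr h1
    obtain ⟨ε, e1, e2⟩ := (h2.and (xe_not_Sk he hab)).exists
    obtain ⟨i, j, k, hF, hR⟩ := hT.cover _ e2.2 e2.1
    exact e1 (i, j, k) ⟨hF, hR⟩
  have hF : Fc G p i j k := hf.exists.choose_spec.1
  have hfR : ∃ᶠ ε in 𝓝[>] (0:ℝ), xe (p a) (p b) ε ∈ Reg (p i) (p j) (p k) :=
    hf.mono fun ε h => h.2
  have hmc : p a + p b ∈ closure (Reg (p i) (p j) (p k)) :=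
    mem_closure_of_frequently_of_tendsto hfR (xe_tendsto (p a) (p b))
  have hmS : p a + p b ∈ SkC G p := ⟨hm0, a, b, hab, 1, 1, zero_le_one, zero_le_one, by simp⟩
  have hmR : p a + p b ∉ Reg (p i) (p j) (p k) := fun hc => hF.empty _ hc hmS
  have hbd : p a + p b ∈ CC (p i) (p j) (p k) ∧ p a + p b ∉ OC (p i) (p j) (p k) := by
    rcases lt_or_gt_of_ne hF.det_ne with hs | hs
    · rw [Reg_neg hs] at hmc hmR
      refine ⟨not_not.mp hmR, fun hc => ?_⟩
      obtain ⟨y, hy, hy'⟩ := mem_closure_iff.mp hmc _ (OC_open hF.det_ne) hc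
      exact hy' (OC_sub_CC _ _ _ hy)
    · rw [Reg_pos hs] at hmc hmR
      refine ⟨?_, hmR⟩
      have := closure_mono (OC_sub_CC (p i) (p j) (p k)) hmc
      rwa [(CC_closed hF.det_ne).closure_eq] at this
  -- the edge `a b` is an edge of the face
  have hfin : ∀ i j k : Fin n, Fc G p i j k → s(a, b) = s(i, j) →
      (∃ᶠ ε in 𝓝[>] (0:ℝ), xe (p a) (p b) ε ∈ Reg (p i) (p j) (p k)) → ∃ c, Fc G p a b c := by
    intro i j k hF hs hfr
    rcases Sym2.eq_iff.mp hs with ⟨rfl, rfl⟩ | ⟨rfl, rfl⟩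
    · exact ⟨k, hF⟩
    · exfalso
      obtain ⟨ε, e1, e2⟩ := (hfr.and_eventually (xe_not_Reg he hF)).exists
      exact e2 e1
  rcases bdry hF.det_ne hbd.1 hbd.2 with h1 | h1 | h1
  · exact hfin i j k hF (mid_edge he hab hF.ab h1) hfR
  · exact hfin j k i (Fc_rot hF) (mid_edge he hab hF.bc h1) (by rw [Reg_rot]; exact hfR)
  · exact hfin k i j (Fc_rot (Fc_rot hF)) (mid_edge he hab hF.ca h1)
      (by rw [Reg_rot, Reg_rot]; exact hfR)

end Pool.Agent.Q198.Snk
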