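import Pool.Agent.Q198.Snk.J1
import Pool.Agent.Q131.Snk.Stm2

/-! JOB 7 of the project on MP_731b42_co and MP_e680c3_co: an octahedron with the north pole on an
edge. -/

namespace Pool.Agent.Q198.Snk

open Set Filter Topology Helper479.Sink Pool.Agent.Q131.Snk

/-- closure of an open spherical triangle -/
lemma closure_tri {p q r : Fin 3 → ℝ} (h : det3 p q r ≠ 0) :
    closure (S2 ∩ OC p q r) = S2 ∩ CC p q r := by
  apply Subset.antisymm
  · apply closure_minimal
    · rintro x ⟨h1, h2⟩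
      exact ⟨h1, OC_sub_CC _ _ _ h2⟩
    · exact S2_closed.inter (CC_closed h)
  · rintro x ⟨hx, α, β, γ, hα, hβ, hγ, hxe⟩
    have hne : x ≠ 0 := S2_ne0 hx
    have hin : ∀ ε : ℝ, 0 < ε → (1:ℝ) • x + ε • (p + q + r) ∈ OC p q r := by
      intro ε hε
      refine ⟨α + ε, β + ε, γ + ε, by positivity, by positivity, by positivity, ?_⟩
      rw [hxe]
      simp only [smul_add, add_smul, one_smul]; abel
    have hcont : ContinuousAt (fun ε : ℝ => nu ((1:ℝ) • x + ε • (p + q + r))) 0 := by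
      apply ContinuousAt.comp (g := nu) (f := fun ε : ℝ => (1:ℝ) • x + ε • (p + q + r))
      · simp only [zero_smul, add_zero, one_smul]
        exact nu_cont hne
      · fun_prop
    have hlim : Tendsto (fun ε : ℝ => nu ((1:ℝ) • x + ε • (p + q + r))) (𝓝[>] 0) (𝓝 x) := by
      have h0 : nu ((1:ℝ) • x + (0:ℝ) • (p + q + r)) = x := by
        simp only [zero_smul, add_zero, one_smul]; exact nu_of_mem hx
      have := hcont.tendsto
      rw [h0] at this
      exact this.mono_left nhdsWithin_le_nhds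
    apply mem_closure_of_tendsto hlim
    filter_upwards [self_mem_nhdsWithin] with ε hε
    have h1 := hin ε hε
    have h0 : (1:ℝ) • x + ε • (p + q + r) ≠ 0 := by
      intro h2; rw [h2] at h1; exact zero_not_OC h h1
    exact ⟨nu_mem h0, smul_OC (inv_pos.mpr (len_pos h0)) h1⟩

lemma tri_bdry {p q r : Fin 3 → ℝ} (h : det3 p q r ≠ 0) :
    closure (S2 ∩ OC p q r) \ (S2 ∩ OC p q r) = arc p q ∪ arc q r ∪ arc r p := by
  rw [closure_tri h]
  ext x
  constructor
  · rintro ⟨⟨h1, h2⟩, h3⟩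
    have h4 : x ∉ OC p q r := fun h5 => h3 ⟨h1, h5⟩
    rcases bdry h h2 h4 with ⟨s, t, hs, ht, e⟩ | ⟨s, t, hs, ht, e⟩ | ⟨s, t, hs, ht, e⟩
    · exact Or.inl (Or.inl ⟨h1, s, t, hs, ht, e⟩)
    · exact Or.inl (Or.inr ⟨h1, s, t, hs, ht, e⟩)
    · exact Or.inr ⟨h1, s, t, hs, ht, e⟩
  · intro hx
    have h1 : x ∈ S2 := by rcases hx with (hx | hx) | hx <;> exact hx.1
    have h2 : x ∈ EC p q ∨ x ∈ EC q r ∨ x ∈ EC r p := by
      rcases hx with (hx | hx) | hx
      · exact Or.inl (arc_EC hx)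
      · exact Or.inr (Or.inl (arc_EC hx))
      · exact Or.inr (Or.inr (arc_EC hx))
    exact ⟨⟨h1, EC_sub h2⟩, fun h3 => EC_not_OC h h2 h3.2⟩

/-- an open spherical triangle that is free of edges is a face -/
lemma tri_face {n : ℕ} {G : SimpleGraph (Fin n)} {v : Fin n → Fin 3 → ℝ} {i j k : Fin n}
    (hij : G.Adj i j) (hjk : G.Adj j k) (hki : G.Adj k i) (h : det3 (v i) (v j) (v k) ≠ 0)
    (hdis : ∀ y ∈ S2 ∩ OC (v i) (v j) (v k), y ∉ skeleton G v) {x : Fin 3 → ℝ}
    (hx : x ∈ S2 ∩ OC (v i) (v j) (v k)) {U : Set (Fin 3 → ℝ)}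
    (hU : U = connectedComponentIn (S2 \ skeleton G v) x) :
    IsTriangularFace G v U i j k := by
  have hsub : S2 ∩ OC (v i) (v j) (v k) ⊆ S2 \ skeleton G v := fun y hy => ⟨hy.1, hdis y hy⟩
  have hpre : IsPreconnected (S2 ∩ OC (v i) (v j) (v k)) := by
    have e : S2 ∩ OC (v i) (v j) (v k) = nu '' OC (v i) (v j) (v k) := by
      ext y
      constructor
      · rintro ⟨h1, h2⟩; exact ⟨y, h2, nu_of_mem h1⟩
      · rintro ⟨z, hz, rfl⟩
        have h0 : z ≠ 0 := by rintro rfl; exact zero_not_OC h hz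
        exact ⟨nu_mem h0, smul_OC (inv_pos.mpr (len_pos h0)) hz⟩
    rw [e]
    apply (OC_convex _ _ _).isPreconnected.image
    intro z hz
    have h0 : z ≠ 0 := by rintro rfl; exact zero_not_OC h hz
    exact (nu_cont h0).continuousWithinAt
  have hUe : U = S2 ∩ OC (v i) (v j) (v k) := by
    rw [hU]
    apply Subset.antisymm
    · have hCp : IsPreconnected (connectedComponentIn (S2 \ skeleton G v) x) :=
        isPreconnected_connectedComponentIn
      have hCX := connectedComponentIn_subset (S2 \ skeleton G v) x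
      have hcov : connectedComponentIn (S2 \ skeleton G v) x ⊆
          OC (v i) (v j) (v k) ∪ (CC (v i) (v j) (v k))ᶜ := by
        intro z hz
        by_cases h1 : z ∈ CC (v i) (v j) (v k)
        · left
          by_contra h2
          obtain ⟨hz1, hz2⟩ := hCX hz
          apply hz2
          rcases bdry h h1 h2 with ⟨s, t, hs, ht, e⟩ | ⟨s, t, hs, ht, e⟩ | ⟨s, t, hs, ht, e⟩
          · exact ⟨i, j, hij, hz1, s, t, hs, ht, e⟩
          · exact ⟨j, k, hjk, hz1, s, t, hs, ht, e⟩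
          · exact ⟨k, i, hki, hz1, s, t, hs, ht, e⟩
        · exact Or.inr h1
      have := hCp.subset_left_of_subset_union (OC_open h) (CC_closed h).isOpen_compl (by
        rw [Set.disjoint_left]
        intro z hz hz'
        exact hz' (OC_sub_CC _ _ _ hz)) hcov ⟨x, mem_connectedComponentIn (hsub hx), hx.2⟩
      exact fun z hz => ⟨(hCX hz).1, this hz⟩
    · exact hpre.subset_connectedComponentIn hx hsub
  refine ⟨⟨x, hsub hx, hU⟩, hij, hjk, hki, ?_⟩
  rw [hUe, tri_bdry h]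

/-- antipodal vertex -/
def ant : Fin 6 → Fin 6 := ![1, 0, 4, 5, 2, 3]

/-- the graph of the octahedron -/
def G6 : SimpleGraph (Fin 6) where
  Adj i j := i ≠ j ∧ j ≠ ant i
  symm := ⟨by intro i j; revert i j; decide⟩
  loopless := ⟨by intro i h; exact h.1 rfl⟩

instance : DecidableRel G6.Adj := fun i j => inferInstanceAs (Decidable (i ≠ j ∧ j ≠ ant i))

/-- five times the vertices -/
def V6 : Fin 6 → Fin 3 → ℤ :=
  ![![5, 0, 0], ![-5, 0, 0], ![0, 3, 4], ![0, -4, 3], ![0, -3, -4], ![0, 4, -3]]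

/-- the vertices -/
noncomputable def v6 (i : Fin 6) (m : Fin 3) : ℝ := (V6 i m : ℝ) / 5

/-- scalar product -/
def dt (a b : Fin 3 → ℝ) : ℝ := a 0 * b 0 + a 1 * b 1 + a 2 * b 2

lemma V6_dt : ∀ i j : Fin 6, V6 i 0 * V6 j 0 + V6 i 1 * V6 j 1 + V6 i 2 * V6 j 2 =
    if i = j then 25 else if j = ant i then -25 else 0 := by decide

lemma dt_v6 (i j : Fin 6) : dt (v6 i) (v6 j) = if i = j then 1 else if j = ant i then -1 else 0 := by
  have h := V6_dt i j
  have e : dt (v6 i) (v6 j) =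
      ((V6 i 0 * V6 j 0 + V6 i 1 * V6 j 1 + V6 i 2 * V6 j 2 : ℤ) : ℝ) / 25 := by
    unfold dt v6; push_cast; ring
  rw [e, h]
  split_ifs <;> norm_num

/-- integer determinant -/
def D6 (i j k : Fin 6) : ℤ :=
  V6 i 2 * (V6 j 0 * V6 k 1 - V6 j 1 * V6 k 0) + V6 j 2 * (V6 k 0 * V6 i 1 - V6 k 1 * V6 i 0) +
    V6 k 2 * (V6 i 0 * V6 j 1 - V6 i 1 * V6 j 0)

lemma det_v6 (i j k : Fin 6) : det3 (v6 i) (v6 j) (v6 k) = (D6 i j k : ℝ) / 125 := by
  unfold det3 hA v6 D6; push_cast; ring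

lemma D6_ne : ∀ i j k : Fin 6, G6.Adj i j → G6.Adj j k → G6.Adj k i → D6 i j k ≠ 0 := by decide

lemma det_v6_ne {i j k : Fin 6} (h1 : G6.Adj i j) (h2 : G6.Adj j k) (h3 : G6.Adj k i) :
    det3 (v6 i) (v6 j) (v6 k) ≠ 0 := by
  rw [det_v6]
  have := D6_ne i j k h1 h2 h3
  have h4 : (D6 i j k : ℝ) ≠ 0 := by exact_mod_cast this
  exact div_ne_zero h4 (by norm_num)

lemma dt_lin (a x y : Fin 3 → ℝ) (s t : ℝ) : dt a (s • x + t • y) = s * dt a x + t * dt a y := by
  simp only [dt, Pi.add_apply, Pi.smul_apply, smul_eq_mul]; ring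

lemma v6_S2 (i : Fin 6) : v6 i ∈ S2 := by
  show v6 i 0 ^ 2 + v6 i 1 ^ 2 + v6 i 2 ^ 2 = 1
  have := dt_v6 i i
  simp only [if_true, dt] at this
  linarith

/-- a vertex with positive scalar product with a point of an edge is an end of the edge -/
lemma key6 {i j m : Fin 6} {x : Fin 3 → ℝ} (hx : x ∈ arc (v6 i) (v6 j)) (h : 0 < dt (v6 m) x) :
    m = i ∨ m = j := by
  obtain ⟨-, s, t, hs, ht, e⟩ := hx
  by_contra hc
  push Not at hc
  rw [e, dt_lin, dt_v6, dt_v6, if_neg hc.1, if_neg hc.2] at h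
  have h1 : (if i = ant m then (-1:ℝ) else 0) ≤ 0 := by split_ifs <;> norm_num
  have h2 : (if j = ant m then (-1:ℝ) else 0) ≤ 0 := by split_ifs <;> norm_num
  have := mul_nonneg hs (neg_nonneg.mpr h1)
  have := mul_nonneg ht (neg_nonneg.mpr h2)
  linarith

lemma arc_swap {p q x : Fin 3 → ℝ} (h : x ∈ arc p q) : x ∈ arc q p := by
  obtain ⟨h1, s, t, hs, ht, e⟩ := h
  exact ⟨h1, t, s, ht, hs, by rw [e, add_comm]⟩

/-- a point of an edge with nonpositive scalar product with one end is the other end -/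
lemma end6 {k l : Fin 6} (hkl : G6.Adj k l) {x : Fin 3 → ℝ} (hx : x ∈ arc (v6 k) (v6 l))
    (h : ¬ 0 < dt (v6 l) x) : x = v6 k := by
  obtain ⟨hS, s, t, hs, ht, e⟩ := hx
  have h1 : dt (v6 l) x = t := by
    rw [e, dt_lin, dt_v6, dt_v6, if_neg hkl.ne']
    have : k ≠ ant l := hkl.symm.2
    rw [if_neg this]; simp
  rw [h1] at h
  have ht0 : t = 0 := le_antisymm (not_lt.mp h) ht
  rw [ht0, zero_smul, add_zero] at e
  have hs1 : s = 1 := by
    have h2 : x 0 ^ 2 + x 1 ^ 2 + x 2 ^ 2 = 1 := hS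
    have h3 := dt_v6 k k
    simp only [if_true, dt] at h3
    rw [e] at h2
    simp only [Pi.smul_apply, smul_eq_mul] at h2
    have h4 : s ^ 2 = 1 := by linear_combination h2 - s ^ 2 * h3
    nlinarith
  rw [e, hs1, one_smul]

lemma meet6 (i j k l : Fin 6) (_ : G6.Adj i j) (hkl : G6.Adj k l) (hne : s(i, j) ≠ s(k, l))
    (x : Fin 3 → ℝ) (h1 : x ∈ arc (v6 i) (v6 j)) (h2 : x ∈ arc (v6 k) (v6 l)) :
    ∃ m, m ∈ s(i, j) ∧ m ∈ s(k, l) ∧ x = v6 m := by
  have hcase : (l ≠ i ∧ l ≠ j) ∨ (k ≠ i ∧ k ≠ j) := by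
    by_contra hc
    push Not at hc
    obtain ⟨c1, c2⟩ := hc
    apply hne
    rw [Sym2.eq_iff]
    have n1 := hkl.ne
    by_cases a : l = i
    · right
      refine ⟨a.symm, ?_⟩
      by_cases b : k = i
      · exact absurd (b.trans a.symm) n1
      · exact (c2 b).symm
    · left
      have b := c1 a
      refine ⟨?_, b.symm⟩
      by_contra b'
      exact n1 ((c2 (fun h => b' h.symm)).trans b.symm)
  have fin : ∀ k l : Fin 6, G6.Adj k l → x ∈ arc (v6 k) (v6 l) → (l ≠ i ∧ l ≠ j) →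
      x = v6 k ∧ k ∈ s(i, j) := by
    intro k l hkl h2 hl
    have hx : x = v6 k := end6 hkl h2 (fun h => by
      rcases key6 h1 h with h' | h'
      · exact hl.1 h'
      · exact hl.2 h')
    refine ⟨hx, ?_⟩
    rw [Sym2.mem_iff]
    apply key6 h1
    rw [hx, dt_v6, if_pos rfl]; norm_num
  rcases hcase with hc | hc
  · obtain ⟨e1, e2⟩ := fin k l hkl h2 hc
    exact ⟨k, e2, Sym2.mem_iff.mpr (Or.inl rfl), e1⟩
  · obtain ⟨e1, e2⟩ := fin l k hkl.symm (arc_swap h2) hc
    exact ⟨l, e2, Sym2.mem_iff.mpr (Or.inr rfl), e1⟩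

/-- the faces -/
lemma face6 (U : Set (Fin 3 → ℝ)) (hU : IsFace G6 v6 U) :
    ∃ i j k, IsTriangularFace G6 v6 U i j k ∧ det3 (v6 i) (v6 j) (v6 k) ≠ 0 := by
  obtain ⟨x, hx, hUx⟩ := hU
  -- expansion in the orthonormal basis
  have hexp : x = (x 0) • v6 0 + dt (v6 2) x • v6 2 + dt (v6 3) x • v6 3 := by
    ext m
    fin_cases m <;> simp [v6, V6, dt] <;> ring
  -- a triple of vertices
  have key : ∀ (i j k : Fin 6) (α β γ : ℝ), G6.Adj i j → G6.Adj j k → G6.Adj k i → 0 ≤ α → 0 ≤ β →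
      0 ≤ γ → x = α • v6 i + β • v6 j + γ • v6 k →
      ∃ i j k, IsTriangularFace G6 v6 U i j k ∧ det3 (v6 i) (v6 j) (v6 k) ≠ 0 := by
    intro i j k α β γ hij hjk hki hα hβ hγ e
    have hd := det_v6_ne hij hjk hki
    refine ⟨i, j, k, ?_, hd⟩
    have hC : x ∈ CC (v6 i) (v6 j) (v6 k) := ⟨α, β, γ, hα, hβ, hγ, e⟩
    have hO : x ∈ OC (v6 i) (v6 j) (v6 k) := by
      by_contra hc
      apply hx.2
      rcases bdry hd hC hc with ⟨s, t, hs, ht, e⟩ | ⟨s, t, hs, ht, e⟩ | ⟨s, t, hs, ht, e⟩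
      · exact ⟨i, j, hij, hx.1, s, t, hs, ht, e⟩
      · exact ⟨j, k, hjk, hx.1, s, t, hs, ht, e⟩
      · exact ⟨k, i, hki, hx.1, s, t, hs, ht, e⟩
    apply tri_face hij hjk hki hd _ ⟨hx.1, hO⟩ hUx
    rintro y ⟨hy, α', β', γ', hα', hβ', hγ', e'⟩ ⟨a, b, hab, hyab⟩
    have e'' : y = (1:ℝ) • (α' • v6 i + β' • v6 j) + γ' • v6 k := by rw [e']; simp
    have di : dt (v6 i) y = α' := by
      rw [e'', dt_lin, dt_lin, dt_v6, dt_v6, dt_v6, if_pos rfl, if_neg hij.ne, if_neg hij.2,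
        if_neg hki.ne', if_neg hki.symm.2]; simp
    have dj : dt (v6 j) y = β' := by
      rw [e'', dt_lin, dt_lin, dt_v6, dt_v6, dt_v6, if_pos rfl, if_neg hij.ne', if_neg hij.symm.2,
        if_neg hjk.ne, if_neg hjk.2]; simp
    have dk : dt (v6 k) y = γ' := by
      rw [e'', dt_lin, dt_lin, dt_v6, dt_v6, dt_v6, if_pos rfl, if_neg hki.ne, if_neg hki.2,
        if_neg hjk.ne', if_neg hjk.symm.2]; simp
    have c1 := key6 hyab (di ▸ hα' : 0 < dt (v6 i) y)
    have c2 := key6 hyab (dj ▸ hβ' : 0 < dt (v6 j) y)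
    have c3 := key6 hyab (dk ▸ hγ' : 0 < dt (v6 k) y)
    have n1 := hij.ne
    have n2 := hjk.ne
    have n3 := hki.ne
    rcases c1 with c1 | c1 <;> rcases c2 with c2 | c2 <;> rcases c3 with c3 | c3 <;>
      first
      | exact n1 (c1.trans c2.symm)
      | exact n2 (c2.trans c3.symm)
      | exact n3 (c3.trans c1.symm)
  have vant : ∀ i m, V6 (ant i) m = - V6 i m := by decide
  have vneg : ∀ i, v6 (ant i) = - v6 i := by
    intro i; ext m; simp only [v6, vant, Pi.neg_apply]; push_cast; ring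
  have v1 : v6 1 = - v6 0 := vneg 0
  have v4 : v6 4 = - v6 2 := vneg 2
  have v5 : v6 5 = - v6 3 := vneg 3
  rcases le_total 0 (x 0) with h0 | h0 <;> rcases le_total 0 (dt (v6 2) x) with h2 | h2 <;>
    rcases le_total 0 (dt (v6 3) x) with h3 | h3
  · exact key 0 2 3 _ _ _ (by decide) (by decide) (by decide) h0 h2 h3 hexp
  · exact key 0 2 5 (x 0) (dt (v6 2) x) (- dt (v6 3) x) (by decide) (by decide) (by decide) h0 h2
      (by linarith) (by rw [v5, neg_smul_neg]; exact hexp)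
  · exact key 0 4 3 (x 0) (- dt (v6 2) x) (dt (v6 3) x) (by decide) (by decide) (by decide) h0
      (by linarith) h3 (by rw [v4, neg_smul_neg]; exact hexp)
  · exact key 0 4 5 (x 0) (- dt (v6 2) x) (- dt (v6 3) x) (by decide) (by decide) (by decide) h0
      (by linarith) (by linarith) (by rw [v4, v5, neg_smul_neg, neg_smul_neg]; exact hexp)
  · exact key 1 2 3 (- x 0) (dt (v6 2) x) (dt (v6 3) x) (by decide) (by decide) (by decide)
      (by linarith) h2 h3 (by rw [v1, neg_smul_neg]; exact hexp)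
  · exact key 1 2 5 (- x 0) (dt (v6 2) x) (- dt (v6 3) x) (by decide) (by decide) (by decide)
      (by linarith) h2 (by linarith) (by rw [v1, v5, neg_smul_neg, neg_smul_neg]; exact hexp)
  · exact key 1 4 3 (- x 0) (- dt (v6 2) x) (dt (v6 3) x) (by decide) (by decide) (by decide)
      (by linarith) (by linarith) h3 (by rw [v1, v4, neg_smul_neg, neg_smul_neg]; exact hexp)
  · exact key 1 4 5 (- x 0) (- dt (v6 2) x) (- dt (v6 3) x) (by decide) (by decide) (by decide)
      (by linarith) (by linarith) (by linarith)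
      (by rw [v1, v4, v5, neg_smul_neg, neg_smul_neg, neg_smul_neg]; exact hexp)

lemma v6_ant (i j : Fin 6) (h : v6 i = - v6 j) : j = ant i := by
  by_contra hc
  have h1 := dt_v6 i j
  have h2 := dt_v6 j j
  have h3 : dt (v6 i) (v6 j) = - dt (v6 j) (v6 j) := by
    rw [h]; simp only [dt, Pi.neg_apply]; ring
  rw [h1, h2, if_pos rfl] at h3
  by_cases e : i = j
  · rw [if_pos e] at h3; norm_num at h3
  · rw [if_neg e, if_neg hc] at h3; norm_num at h3

theorem job7 : Job7 := by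
  have hspt : IsSPT G6 v6 :=
    { four_le := by norm_num
      mem_sphere := v6_S2
      injective := by
        intro i j h
        by_contra hc
        have h1 := dt_v6 i j
        rw [← h, dt_v6, if_pos rfl, if_neg hc] at h1
        split_ifs at h1 <;> norm_num at h1
      not_antipodal := fun i j hij h => hij.2 (v6_ant i j h)
      edges_meet := meet6
      vertex_edge := by
        intro i j m _ hm
        apply key6 hm
        rw [dt_v6, if_pos rfl]; norm_num
      maximal := by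
        rw [Nat.card_eq_fintype_card]
        decide
      faces := fun U hU => by
        obtain ⟨i, j, k, h, -⟩ := face6 U hU
        exact ⟨i, j, k, h⟩ }
  refine ⟨G6, v6, hspt, ?_, ?_, face6, ?_, 2, 3, by decide, ?_⟩
  · refine { preconnected := ?_, nonempty := ⟨0⟩ }
    intro i j
    have : ∀ i j : Fin 6, i = j ∨ G6.Adj i j ∨ ∃ k, G6.Adj i k ∧ G6.Adj k j := by decide
    rcases this i j with h | h | ⟨k, h1, h2⟩
    · rw [h]
    · exact h.reachable
    · exact h1.reachable.trans h2.reachable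
  · intro i
    have : ∀ i : Fin 6, ¬ (V6 i 0 = 0 ∧ V6 i 1 = 0) := by decide
    rintro ⟨h1, h2⟩
    apply this i
    simp only [v6, div_eq_zero_iff] at h1 h2
    norm_num at h1 h2
    exact ⟨h1, h2⟩
  · intro i j hij
    have : ∀ i j : Fin 6, G6.Adj i j → 0 ≤ V6 i 0 * V6 j 0 := by decide
    have h1 : (0:ℝ) ≤ ((V6 i 0 * V6 j 0 : ℤ) : ℝ) := by exact_mod_cast this i j hij
    have e : v6 i 0 * v6 j 0 = ((V6 i 0 * V6 j 0 : ℤ) : ℝ) / 25 := by
      simp only [v6]; push_cast; ring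
    rw [e]; positivity
  · refine ⟨?_, 4/5, 3/5, by norm_num, by norm_num, ?_⟩
    · show _ = _
      simp [north]
    · ext m
      fin_cases m <;> simp [v6, V6, north] <;> norm_num

end Pool.Agent.Q198.Snk
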