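import Pool.Agent.Q131.Snk.Stm
import Pool.Agent.Q131.Snk.Faces

/-! Cones over triangles in three-space: coordinates, openness, connectedness
(jobs 1 and 2 of the project on MP_731b42_co and MP_e680c3_co). -/

namespace Pool.Agent.Q198.Snk

open Set Filter Topology Helper479.Sink Pool.Agent.Q131.Snk

lemma det3_rot (a b c : Fin 3 → ℝ) : det3 b c a = det3 a b c := by
  unfold det3 hA; ring

lemma det3_swap (a b c : Fin 3 → ℝ) : det3 a c b = - det3 a b c := by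
  unfold det3 hA; ring

lemma det3_swap' (a b c : Fin 3 → ℝ) : det3 b a c = - det3 a b c := by
  unfold det3 hA; ring

/-- coordinates in the basis `a b c` -/
noncomputable def k1 (a b c x : Fin 3 → ℝ) : ℝ := det3 x b c / det3 a b c
noncomputable def k2 (a b c x : Fin 3 → ℝ) : ℝ := det3 a x c / det3 a b c
noncomputable def k3 (a b c x : Fin 3 → ℝ) : ℝ := det3 a b x / det3 a b c

lemma cramer' {a b c : Fin 3 → ℝ} (h : det3 a b c ≠ 0) (x : Fin 3 → ℝ) :
    x = k1 a b c x • a + k2 a b c x • b + k3 a b c x • c := by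
  ext i
  simp only [Pi.add_apply, Pi.smul_apply, smul_eq_mul, k1, k2, k3]
  rw [div_mul_eq_mul_div, div_mul_eq_mul_div, div_mul_eq_mul_div, ← add_div, ← add_div,
    eq_div_iff h]
  fin_cases i
  · simp [det3, hA]; ring
  · simp [det3, hA]; ring
  · simp [det3, hA]; ring

lemma k_comb {a b c : Fin 3 → ℝ} (h : det3 a b c ≠ 0) (α β γ : ℝ) :
    k1 a b c (α • a + β • b + γ • c) = α ∧ k2 a b c (α • a + β • b + γ • c) = β ∧
      k3 a b c (α • a + β • b + γ • c) = γ := by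
  refine ⟨?_, ?_, ?_⟩
  · unfold k1
    rw [div_eq_iff h]
    simp only [det3, hA, Pi.add_apply, Pi.smul_apply, smul_eq_mul]; ring
  · unfold k2
    rw [div_eq_iff h]
    simp only [det3, hA, Pi.add_apply, Pi.smul_apply, smul_eq_mul]; ring
  · unfold k3
    rw [div_eq_iff h]
    simp only [det3, hA, Pi.add_apply, Pi.smul_apply, smul_eq_mul]; ring

lemma k1_lin (a b c : Fin 3 → ℝ) (s t : ℝ) (x y : Fin 3 → ℝ) :
    k1 a b c (s • x + t • y) = s * k1 a b c x + t * k1 a b c y := by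
  unfold k1
  rw [← mul_div_assoc, ← mul_div_assoc, ← add_div]
  congr 1
  simp only [det3, hA, Pi.add_apply, Pi.smul_apply, smul_eq_mul]; ring

lemma k2_lin (a b c : Fin 3 → ℝ) (s t : ℝ) (x y : Fin 3 → ℝ) :
    k2 a b c (s • x + t • y) = s * k2 a b c x + t * k2 a b c y := by
  unfold k2
  rw [← mul_div_assoc, ← mul_div_assoc, ← add_div]
  congr 1
  simp only [det3, hA, Pi.add_apply, Pi.smul_apply, smul_eq_mul]; ring

lemma k3_lin (a b c : Fin 3 → ℝ) (s t : ℝ) (x y : Fin 3 → ℝ) :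
    k3 a b c (s • x + t • y) = s * k3 a b c x + t * k3 a b c y := by
  unfold k3
  rw [← mul_div_assoc, ← mul_div_assoc, ← add_div]
  congr 1
  simp only [det3, hA, Pi.add_apply, Pi.smul_apply, smul_eq_mul]; ring

lemma k1_cont (a b c : Fin 3 → ℝ) : Continuous (k1 a b c) := by
  unfold k1 det3 hA; fun_prop
lemma k2_cont (a b c : Fin 3 → ℝ) : Continuous (k2 a b c) := by
  unfold k2 det3 hA; fun_prop
lemma k3_cont (a b c : Fin 3 → ℝ) : Continuous (k3 a b c) := by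
  unfold k3 det3 hA; fun_prop

lemma mem_OC {a b c : Fin 3 → ℝ} (h : det3 a b c ≠ 0) {x : Fin 3 → ℝ} :
    x ∈ OC a b c ↔ 0 < k1 a b c x ∧ 0 < k2 a b c x ∧ 0 < k3 a b c x := by
  constructor
  · rintro ⟨α, β, γ, hα, hβ, hγ, rfl⟩
    obtain ⟨h1, h2, h3⟩ := k_comb h α β γ
    rw [h1, h2, h3]; exact ⟨hα, hβ, hγ⟩
  · rintro ⟨h1, h2, h3⟩
    exact ⟨_, _, _, h1, h2, h3, cramer' h x⟩

lemma mem_CC {a b c : Fin 3 → ℝ} (h : det3 a b c ≠ 0) {x : Fin 3 → ℝ} :
    x ∈ CC a b c ↔ 0 ≤ k1 a b c x ∧ 0 ≤ k2 a b c x ∧ 0 ≤ k3 a b c x := by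
  constructor
  · rintro ⟨α, β, γ, hα, hβ, hγ, rfl⟩
    obtain ⟨h1, h2, h3⟩ := k_comb h α β γ
    rw [h1, h2, h3]; exact ⟨hα, hβ, hγ⟩
  · rintro ⟨h1, h2, h3⟩
    exact ⟨_, _, _, h1, h2, h3, cramer' h x⟩

lemma OC_sub_CC (a b c : Fin 3 → ℝ) : OC a b c ⊆ CC a b c := by
  rintro x ⟨α, β, γ, hα, hβ, hγ, rfl⟩
  exact ⟨α, β, γ, hα.le, hβ.le, hγ.le, rfl⟩

lemma OC_swap (a b c : Fin 3 → ℝ) : OC a c b = OC a b c := by
  ext x
  constructor
  · rintro ⟨α, β, γ, hα, hβ, hγ, rfl⟩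
    exact ⟨α, γ, β, hα, hγ, hβ, by abel⟩
  · rintro ⟨α, β, γ, hα, hβ, hγ, rfl⟩
    exact ⟨α, γ, β, hα, hγ, hβ, by abel⟩

lemma CC_swap (a b c : Fin 3 → ℝ) : CC a c b = CC a b c := by
  ext x
  constructor
  · rintro ⟨α, β, γ, hα, hβ, hγ, rfl⟩
    exact ⟨α, γ, β, hα, hγ, hβ, by abel⟩
  · rintro ⟨α, β, γ, hα, hβ, hγ, rfl⟩
    exact ⟨α, γ, β, hα, hγ, hβ, by abel⟩

lemma OC_rot (a b c : Fin 3 → ℝ) : OC b c a = OC a b c := by
  ext x
  constructor
  · rintro ⟨α, β, γ, hα, hβ, hγ, rfl⟩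
    exact ⟨γ, α, β, hγ, hα, hβ, by abel⟩
  · rintro ⟨α, β, γ, hα, hβ, hγ, rfl⟩
    exact ⟨β, γ, α, hβ, hγ, hα, by abel⟩

lemma CC_rot (a b c : Fin 3 → ℝ) : CC b c a = CC a b c := by
  ext x
  constructor
  · rintro ⟨α, β, γ, hα, hβ, hγ, rfl⟩
    exact ⟨γ, α, β, hγ, hα, hβ, by abel⟩
  · rintro ⟨α, β, γ, hα, hβ, hγ, rfl⟩
    exact ⟨β, γ, α, hβ, hγ, hα, by abel⟩

lemma Reg_rot (a b c : Fin 3 → ℝ) : Reg b c a = Reg a b c := by
  unfold Reg; rw [det3_rot, OC_rot, CC_rot]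

lemma OC_open {a b c : Fin 3 → ℝ} (h : det3 a b c ≠ 0) : IsOpen (OC a b c) := by
  have : OC a b c = {x | 0 < k1 a b c x} ∩ ({x | 0 < k2 a b c x} ∩ {x | 0 < k3 a b c x}) := by
    ext x; exact mem_OC h
  rw [this]
  exact (isOpen_lt continuous_const (k1_cont _ _ _)).inter
    ((isOpen_lt continuous_const (k2_cont _ _ _)).inter
      (isOpen_lt continuous_const (k3_cont _ _ _)))

lemma CC_closed {a b c : Fin 3 → ℝ} (h : det3 a b c ≠ 0) : IsClosed (CC a b c) := by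
  have : CC a b c = {x | 0 ≤ k1 a b c x} ∩ ({x | 0 ≤ k2 a b c x} ∩ {x | 0 ≤ k3 a b c x}) := by
    ext x; exact mem_CC h
  rw [this]
  exact (isClosed_le continuous_const (k1_cont _ _ _)).inter
    ((isClosed_le continuous_const (k2_cont _ _ _)).inter
      (isClosed_le continuous_const (k3_cont _ _ _)))

lemma zero_mem_CC (a b c : Fin 3 → ℝ) : (0 : Fin 3 → ℝ) ∈ CC a b c :=
  ⟨0, 0, 0, le_rfl, le_rfl, le_rfl, by simp⟩

lemma zero_not_OC {a b c : Fin 3 → ℝ} (h : det3 a b c ≠ 0) : (0 : Fin 3 → ℝ) ∉ OC a b c := by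
  rintro ⟨α, β, γ, hα, hβ, hγ, h0⟩
  obtain ⟨h1, -, -⟩ := k_comb h α β γ
  rw [← h0] at h1
  have h2 : k1 a b c 0 = 0 := by
    have := k1_lin a b c 0 0 0 0
    simpa using this
  linarith

lemma smul_OC {a b c x : Fin 3 → ℝ} {t : ℝ} (ht : 0 < t) (hx : x ∈ OC a b c) :
    t • x ∈ OC a b c := by
  obtain ⟨α, β, γ, hα, hβ, hγ, rfl⟩ := hx
  exact ⟨t * α, t * β, t * γ, by positivity, by positivity, by positivity,
    by simp only [smul_add, smul_smul]⟩

lemma smul_CC {a b c x : Fin 3 → ℝ} {t : ℝ} (ht : 0 ≤ t) (hx : x ∈ CC a b c) :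
    t • x ∈ CC a b c := by
  obtain ⟨α, β, γ, hα, hβ, hγ, rfl⟩ := hx
  exact ⟨t * α, t * β, t * γ, by positivity, by positivity, by positivity,
    by simp only [smul_add, smul_smul]⟩

lemma smul_EC {a b x : Fin 3 → ℝ} {t : ℝ} (ht : 0 ≤ t) (hx : x ∈ EC a b) :
    t • x ∈ EC a b := by
  obtain ⟨α, β, hα, hβ, rfl⟩ := hx
  exact ⟨t * α, t * β, by positivity, by positivity, by simp only [smul_add, smul_smul]⟩

lemma OC_convex (a b c : Fin 3 → ℝ) : Convex ℝ (OC a b c) := by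
  rintro x ⟨α, β, γ, hα, hβ, hγ, rfl⟩ y ⟨α', β', γ', hα', hβ', hγ', rfl⟩ s t hs ht hst
  have key : ∀ u v : ℝ, 0 < u → 0 < v → 0 < s * u + t * v := by
    intro u v hu hv
    rcases hs.eq_or_lt with h | h
    · have : t = 1 := by linarith
      rw [← h, this]; linarith
    · have := mul_pos h hu
      have := mul_nonneg ht hv.le
      linarith
  refine ⟨s * α + t * α', s * β + t * β', s * γ + t * γ', key _ _ hα hα', key _ _ hβ hβ',
    key _ _ hγ hγ', ?_⟩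
  simp only [smul_add, add_smul, smul_smul]
  abel

/-- the complement of a closed nondegenerate cone is preconnected -/
lemma CCc_preconn {a b c : Fin 3 → ℝ} (h : det3 a b c ≠ 0) : IsPreconnected (CC a b c)ᶜ := by
  set w : Fin 3 → ℝ := (1:ℝ) • a + (1:ℝ) • b + (1:ℝ) • c with hw
  obtain ⟨w1, w2, w3⟩ := k_comb h 1 1 1
  rw [← hw] at w1 w2 w3
  -- the opposite open cone
  set N : Set (Fin 3 → ℝ) := {x | (-1:ℝ) • x ∈ OC a b c} with hN
  have hNconv : Convex ℝ N := by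
    intro x hx y hy s t hs ht hst
    have := OC_convex a b c hx hy hs ht hst
    have e : (-1:ℝ) • (s • x + t • y) = s • ((-1:ℝ) • x) + t • ((-1:ℝ) • y) := by
      simp only [smul_add, smul_smul]; congr 2 <;> ring_nf
    show (-1:ℝ) • (s • x + t • y) ∈ OC a b c
    rw [e]; exact this
  have hNsub : N ⊆ (CC a b c)ᶜ := by
    intro x hx hx'
    have h1 := ((mem_OC h).mp hx).1
    have h2 := ((mem_CC h).mp hx').1
    have e : k1 a b c ((-1:ℝ) • x) = - k1 a b c x := by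
      have := k1_lin a b c (-1) 0 x 0
      simpa using this
    rw [e] at h1; linarith
  have hnw : (-1:ℝ) • w ∈ N := by
    show (-1:ℝ) • ((-1:ℝ) • w) ∈ OC a b c
    rw [smul_smul]
    exact ⟨1, 1, 1, one_pos, one_pos, one_pos, by rw [hw]; norm_num⟩
  refine isPreconnected_of_forall ((-1:ℝ) • w) fun y hy => ?_
  set R : Set (Fin 3 → ℝ) := (fun t : ℝ => (1:ℝ) • y + (-t) • w) '' Ici 0 with hR
  refine ⟨R ∪ N, ?_, Or.inr hnw, Or.inl ⟨0, by simp, by simp⟩, ?_⟩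
  · apply union_subset _ hNsub
    rintro _ ⟨t, ht, rfl⟩ hmem
    have ht' : (0:ℝ) ≤ t := ht
    apply hy
    rw [mem_CC h] at hmem ⊢
    simp only [k1_lin, k2_lin, k3_lin, w1, w2, w3] at hmem
    obtain ⟨m1, m2, m3⟩ := hmem
    exact ⟨by linarith, by linarith, by linarith⟩
  · obtain ⟨T, hT0, hT⟩ : ∃ T : ℝ, 0 ≤ T ∧ (1:ℝ) • y + (-T) • w ∈ N := by
      refine ⟨|k1 a b c y| + |k2 a b c y| + |k3 a b c y| + 1, by positivity, ?_⟩
      show (-1:ℝ) • _ ∈ OC a b c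
      rw [mem_OC h]
      set T := |k1 a b c y| + |k2 a b c y| + |k3 a b c y| + 1 with hTd
      have e : (-1:ℝ) • ((1:ℝ) • y + (-T) • w) = (-1:ℝ) • y + T • w := by
        simp only [smul_add, smul_smul]; congr 2 <;> ring_nf
      rw [e, k1_lin, k2_lin, k3_lin, w1, w2, w3]
      have a1 := le_abs_self (k1 a b c y)
      have a2 := le_abs_self (k2 a b c y)
      have a3 := le_abs_self (k3 a b c y)
      have b1 := abs_nonneg (k1 a b c y)
      have b2 := abs_nonneg (k2 a b c y)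
      have b3 := abs_nonneg (k3 a b c y)
      exact ⟨by linarith, by linarith, by linarith⟩
    have hTR : (1:ℝ) • y + (-T) • w ∈ R := ⟨T, hT0, rfl⟩
    apply IsPreconnected.union ((1:ℝ) • y + (-T) • w) hTR hT
    · apply isPreconnected_Ici.image
      fun_prop
    · exact hNconv.isPreconnected

/-- points of the closed cone that are not in the open cone lie on an edge cone -/
lemma bdry {a b c x : Fin 3 → ℝ} (h : det3 a b c ≠ 0) (hx : x ∈ CC a b c)
    (hx' : x ∉ OC a b c) : x ∈ EC a b ∨ x ∈ EC b c ∨ x ∈ EC c a := by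
  obtain ⟨α, β, γ, hα, hβ, hγ, rfl⟩ := hx
  rcases hα.eq_or_lt with h1 | h1
  · right; left
    exact ⟨β, γ, hβ, hγ, by rw [← h1]; simp⟩
  rcases hβ.eq_or_lt with h2 | h2
  · right; right
    exact ⟨γ, α, hγ, hα, by rw [← h2]; simp [add_comm]⟩
  rcases hγ.eq_or_lt with h3 | h3
  · left
    exact ⟨α, β, hα, hβ, by rw [← h3]; simp⟩
  exact (hx' ⟨α, β, γ, h1, h2, h3, rfl⟩).elim

lemma EC_sub {a b c x : Fin 3 → ℝ} (hx : x ∈ EC a b ∨ x ∈ EC b c ∨ x ∈ EC c a) :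
    x ∈ CC a b c := by
  rcases hx with ⟨s, t, hs, ht, rfl⟩ | ⟨s, t, hs, ht, rfl⟩ | ⟨s, t, hs, ht, rfl⟩
  · exact ⟨s, t, 0, hs, ht, le_rfl, by simp⟩
  · exact ⟨0, s, t, le_rfl, hs, ht, by simp⟩
  · exact ⟨t, 0, s, ht, le_rfl, hs, by simp [add_comm]⟩

lemma EC_not_OC {a b c x : Fin 3 → ℝ} (h : det3 a b c ≠ 0)
    (hx : x ∈ EC a b ∨ x ∈ EC b c ∨ x ∈ EC c a) : x ∉ OC a b c := by
  rw [mem_OC h]
  rintro ⟨h1, h2, h3⟩
  rcases hx with ⟨s, t, hs, ht, rfl⟩ | ⟨s, t, hs, ht, rfl⟩ | ⟨s, t, hs, ht, rfl⟩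
  · have := (k_comb h s t 0).2.2
    simp only [zero_smul, add_zero] at this
    linarith
  · have := (k_comb h 0 s t).1
    simp only [zero_smul, zero_add] at this
    linarith
  · have := (k_comb h t 0 s).2.1
    simp only [zero_smul, add_zero] at this
    rw [add_comm] at this
    linarith

/-- cross product -/
def cr (a b : Fin 3 → ℝ) : Fin 3 → ℝ :=
  ![a 1 * b 2 - a 2 * b 1, a 2 * b 0 - a 0 * b 2, a 0 * b 1 - a 1 * b 0]

lemma det3_cr (a b : Fin 3 → ℝ) :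
    det3 a b (cr a b) = (cr a b 0) ^ 2 + (cr a b 1) ^ 2 + (cr a b 2) ^ 2 := by
  simp [det3, hA, cr]; ring

/-- if the cross product vanishes, the vectors are proportional -/
lemma prop_of_cr {a b : Fin 3 → ℝ} (hb : b ≠ 0) (h : det3 a b (cr a b) = 0) :
    ∃ c : ℝ, a = c • b := by
  rw [det3_cr] at h
  have h0 : cr a b 0 = 0 := by nlinarith [sq_nonneg (cr a b 0), sq_nonneg (cr a b 1), sq_nonneg (cr a b 2)]
  have h1 : cr a b 1 = 0 := by nlinarith [sq_nonneg (cr a b 0), sq_nonneg (cr a b 1), sq_nonneg (cr a b 2)]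
  have h2 : cr a b 2 = 0 := by nlinarith [sq_nonneg (cr a b 0), sq_nonneg (cr a b 1), sq_nonneg (cr a b 2)]
  simp only [cr, Matrix.cons_val_zero, Matrix.cons_val_one, Matrix.cons_val] at h0 h1 h2
  by_cases b0 : b 0 = 0
  · by_cases b1 : b 1 = 0
    · have b2 : b 2 ≠ 0 := by
        intro b2; apply hb; ext i; fin_cases i <;> simp [b0, b1, b2]
      refine ⟨a 2 / b 2, ?_⟩
      ext i; fin_cases i <;> simp only [Pi.smul_apply, smul_eq_mul, Fin.zero_eta, Fin.mk_one, Fin.reduceFinMk]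
      · rw [div_mul_eq_mul_div, eq_div_iff b2]; linarith
      · rw [div_mul_eq_mul_div, eq_div_iff b2]; linarith
      · rw [div_mul_cancel₀ _ b2]
    · refine ⟨a 1 / b 1, ?_⟩
      ext i; fin_cases i <;> simp only [Pi.smul_apply, smul_eq_mul, Fin.zero_eta, Fin.mk_one, Fin.reduceFinMk]
      · rw [div_mul_eq_mul_div, eq_div_iff b1]; linarith
      · rw [div_mul_cancel₀ _ b1]
      · rw [div_mul_eq_mul_div, eq_div_iff b1]; linarith
  · refine ⟨a 0 / b 0, ?_⟩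
    ext i; fin_cases i <;> simp only [Pi.smul_apply, smul_eq_mul, Fin.zero_eta, Fin.mk_one, Fin.reduceFinMk]
    · rw [div_mul_cancel₀ _ b0]
    · rw [div_mul_eq_mul_div, eq_div_iff b0]; linarith
    · rw [div_mul_eq_mul_div, eq_div_iff b0]; linarith

section emb

variable {n : ℕ} {G : SimpleGraph (Fin n)} {p : Fin n → Fin 3 → ℝ}

lemma EmbC.det_pos (h : EmbC G p) {a b : Fin n} (hab : G.Adj a b) :
    0 < det3 (p a) (p b) (cr (p a) (p b)) := by
  rcases (show (0:ℝ) ≤ det3 (p a) (p b) (cr (p a) (p b)) by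
    rw [det3_cr]; positivity).eq_or_lt with h0 | h0
  · exfalso
    obtain ⟨c, hc⟩ := prop_of_cr (h.ne0 b) h0.symm
    rcases lt_trichotomy c 0 with h1 | h1 | h1
    · exact h.anti a b (-c) hab (by linarith) (by rw [hc]; simp)
    · apply h.ne0 a; rw [hc, h1, zero_smul]
    · exact hab.ne (h.inj a b c h1 hc)
  · exact h0

lemma EC_closed {a b : Fin 3 → ℝ} (h : 0 < det3 a b (cr a b)) : IsClosed (EC a b) := by
  have e : EC a b = CC a b (cr a b) ∩ {x | k3 a b (cr a b) x = 0} := by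
    ext x
    constructor
    · rintro ⟨s, t, hs, ht, rfl⟩
      refine ⟨⟨s, t, 0, hs, ht, le_rfl, by simp⟩, ?_⟩
      have := (k_comb h.ne' s t 0).2.2
      simpa using this
    · rintro ⟨⟨s, t, u, hs, ht, hu, rfl⟩, h2⟩
      have h3 := (k_comb h.ne' s t u).2.2
      have h4 : u = 0 := h3.symm.trans h2
      exact ⟨s, t, hs, ht, by rw [h4]; simp⟩
  rw [e]
  exact (CC_closed h.ne').inter (isClosed_eq (k3_cont _ _ _) continuous_const)

lemma EC_zero (a b : Fin 3 → ℝ) : (0 : Fin 3 → ℝ) ∈ EC a b := ⟨0, 0, le_rfl, le_rfl, by simp⟩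

/-- the cone over the skeleton together with the origin is closed -/
lemma Sk0_closed (h : EmbC G p) : IsClosed {x | ∃ i j, G.Adj i j ∧ x ∈ EC (p i) (p j)} := by
  have e : {x | ∃ i j, G.Adj i j ∧ x ∈ EC (p i) (p j)} =
      ⋃ q : {q : Fin n × Fin n // G.Adj q.1 q.2}, EC (p q.1.1) (p q.1.2) := by
    ext x
    simp only [mem_setOf_eq, mem_iUnion, Subtype.exists, Prod.exists]
    constructor
    · rintro ⟨i, j, hij, hx⟩; exact ⟨i, j, hij, hx⟩
    · rintro ⟨i, j, hij, hx⟩; exact ⟨i, j, hij, hx⟩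
  rw [e]
  exact isClosed_iUnion_of_finite fun q => EC_closed (EmbC.det_pos h q.2)

/-- the set of nonzero points that are not on the cone over the skeleton is open -/
lemma Wc_open (h : EmbC G p) : IsOpen {x | x ≠ 0 ∧ x ∉ SkC G p} := by
  have e : {x | x ≠ 0 ∧ x ∉ SkC G p} =
      {x | ∃ i j, G.Adj i j ∧ x ∈ EC (p i) (p j)}ᶜ ∩ {(0 : Fin 3 → ℝ)}ᶜ := by
    ext x
    simp only [SkC, mem_setOf_eq, mem_inter_iff, mem_compl_iff, mem_singleton_iff, not_and]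
    constructor
    · rintro ⟨h1, h2⟩; exact ⟨h2 h1, h1⟩
    · rintro ⟨h1, h2⟩; exact ⟨h2, fun _ => h1⟩
  rw [e]
  exact (Sk0_closed h).isOpen_compl.inter isOpen_compl_singleton

end emb

end Pool.Agent.Q198.Snk
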